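import Pool.Agent.H708Z.GSStable

/-!
Meeting of two lines is a stable relation.
-/

set_option autoImplicit false

namespace Pool.Agent.H708Z.GS

lemma lines_iff {d : ℕ} (p u q w : Fin d → ℝ) (hu : u ≠ 0) :
    (∃ s t : ℝ, ∀ l, p l + s * u l = q l + t * w l) ↔
      (∃ i j, ¬ (u i * w j - u j * w i = 0) ∧ ∀ l, (q l - p l) * (u i * w j - u j * w i) -
        ((q i - p i) * w j - (q j - p j) * w i) * u l -
        (u i * (q j - p j) - u j * (q i - p i)) * w l = 0) ∨
      ((∀ i j, u i * w j - u j * w i = 0) ∧ ∀ i j, u i * (q j - p j) - u j * (q i - p i) = 0) := by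
  constructor
  · rintro ⟨s, t, h⟩
    have e : ∀ l, q l - p l = s * u l - t * w l := fun l => by linarith [h l]
    by_cases hc : ∀ i j, u i * w j - u j * w i = 0
    · refine Or.inr ⟨hc, fun i j => ?_⟩
      rw [e, e]
      linear_combination (-t) * hc i j
    · push Not at hc
      obtain ⟨i, j, hij⟩ := hc
      refine Or.inl ⟨i, j, hij, fun l => ?_⟩
      rw [e, e, e]
      ring
  · rintro (⟨i, j, hij, h⟩ | ⟨-, h⟩)
    · generalize u i * w j - u j * w i = m at hij h
      refine ⟨((q i - p i) * w j - (q j - p j) * w i) / m,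
        -((u i * (q j - p j) - u j * (q i - p i)) / m), fun l => ?_⟩
      field_simp
      linear_combination (-1 : ℝ) * h l
    · obtain ⟨i, hi⟩ : ∃ i, u i ≠ 0 := by
        by_contra hcon
        push Not at hcon
        exact hu (funext hcon)
      refine ⟨(q i - p i) / u i, 0, fun l => ?_⟩
      field_simp
      linear_combination (-1 : ℝ) * h i l

lemma stable_lines (d : ℕ) :
    Stable (fun x y : {z : (Fin d → ℝ) × (Fin d → ℝ) // z.2 ≠ 0} =>
      ∃ s t : ℝ, ∀ l, x.1.1 l + s * x.1.2 l = y.1.1 l + t * y.1.2 l) := by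
  have hp : ∀ i, FinRank (fun x y : {z : (Fin d → ℝ) × (Fin d → ℝ) // z.2 ≠ 0} =>
      y.1.1 i - x.1.1 i) := fun i => (FinRank.right _).sub (FinRank.left _)
  have hu : ∀ i, FinRank (fun x _ : {z : (Fin d → ℝ) × (Fin d → ℝ) // z.2 ≠ 0} => x.1.2 i) :=
    fun i => FinRank.left _
  have hw : ∀ i, FinRank (fun _ y : {z : (Fin d → ℝ) × (Fin d → ℝ) // z.2 ≠ 0} => y.1.2 i) :=
    fun i => FinRank.right _
  have hm := fun i j => ((hu i).mul (hw j)).sub ((hu j).mul (hw i))
  have hn := fun i j => ((hu i).mul (hp j)).sub ((hu j).mul (hp i))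
  have ho := fun i j => ((hp i).mul (hw j)).sub ((hp j).mul (hw i))
  refine Stable.congr (Stable.or (Stable.exists fun i => Stable.exists fun j =>
    (hm i j).stable.not.and (Stable.forall fun l =>
      ((((hp l).mul (hm i j)).sub ((ho i j).mul (hu l))).sub ((hn i j).mul (hw l))).stable))
    ((Stable.forall fun i => Stable.forall fun j => (hm i j).stable).and
      (Stable.forall fun i => Stable.forall fun j => (hn i j).stable))) (fun x y => ?_)
  exact (lines_iff x.1.1 x.1.2 y.1.1 y.1.2 x.2).symm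

lemma line_param {d : ℕ} (L : AffineSubspace ℝ (EuclideanSpace ℝ (Fin d)))
    (hL : Module.finrank ℝ L.direction = 1) :
    ∃ z : {z : (Fin d → ℝ) × (Fin d → ℝ) // z.2 ≠ 0},
      ∀ x : EuclideanSpace ℝ (Fin d), x ∈ L ↔ ∃ s : ℝ, ∀ l, x l = z.1.1 l + s * z.1.2 l := by
  have hne : L ≠ ⊥ := by
    rintro rfl
    rw [AffineSubspace.direction_bot, finrank_bot] at hL
    omega
  obtain ⟨p, hp⟩ := (AffineSubspace.nonempty_iff_ne_bot L).2 hne
  obtain ⟨u, hu0, hu⟩ := finrank_eq_one_iff'.1 hL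
  refine ⟨⟨(fun l => p l, fun l => u.1 l), fun h => hu0 ?_⟩, fun x => ?_⟩
  · ext l
    exact congrFun h l
  · rw [← AffineSubspace.vsub_right_mem_direction_iff_mem hp]
    constructor
    · intro h
      obtain ⟨s, hs⟩ := hu ⟨_, h⟩
      refine ⟨s, fun l => ?_⟩
      have := congrArg (fun v : L.direction => v.1 l) hs
      simp at this
      simp only
      linarith
    · rintro ⟨s, hs⟩
      have : x -ᵥ p = s • u.1 := by
        ext l
        have := hs l
        simp at this ⊢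
        linarith
      rw [this]
      exact Submodule.smul_mem _ _ u.2

theorem gs_lines (d : ℕ) {β : Type} [Fintype β] {F : SimpleGraph β} (hF : F.IsAcyclic) (k : ℕ) :
    ∃ c : ℕ, ∀ (V : Type) (G : SimpleGraph V)
      (L : V → AffineSubspace ℝ (EuclideanSpace ℝ (Fin d))),
      (∀ v, Module.finrank ℝ (L v).direction = 1) →
      (∀ v w, v ≠ w → (G.Adj v w ↔ ∃ x, x ∈ L v ∧ x ∈ L w)) → ¬ Nonempty (F ↪g G) →
      G.CliqueFree k → G.Colorable c := by
  obtain ⟨c, hc⟩ := gs_of_stable (stable_lines d) hF k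
  refine ⟨c, fun V G L hL hG h1 h2 => ?_⟩
  choose z hz using fun v => line_param (L v) (hL v)
  refine hc V G z (fun v w hvw => (hG v w hvw).trans ?_) h1 h2
  constructor
  · rintro ⟨x, hx, hx'⟩
    obtain ⟨s, hs⟩ := (hz v x).1 hx
    obtain ⟨t, ht⟩ := (hz w x).1 hx'
    exact ⟨s, t, fun l => (hs l).symm.trans (ht l)⟩
  · rintro ⟨s, t, h⟩
    refine ⟨WithLp.toLp 2 (fun l => (z v).1.1 l + s * (z v).1.2 l), (hz v _).2 ⟨s, fun l => rfl⟩,
      (hz w _).2 ⟨t, fun l => h l⟩⟩

end Pool.Agent.H708Z.GS
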