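import Pool.Agent.H708Z.GSThick

/-!
The abstract argument: a graph on a space of types with bounded tree rank, local adjacency and
finitary limits, without an induced copy of a tree, has a finite proper colouring.
-/

set_option autoImplicit false

namespace Pool.Agent.H708Z.GS

variable {Ω P : Type*}

/-- The feature given by a tower of limit maps. -/
def TF (mem : Ω → P → Prop) (U : ℕ → Ω → Ω) (h : ℕ) (X Y : Ω) (b : P) : Prop :=
  ∀ i, i ≤ h → (mem (U i Y) b ↔ mem (U (i + 1) X) b)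

/-- Finitary Cantor-Bendixson levels. -/
def CB (mem : Ω → P → Prop) (s : ℕ) : ℕ → Ω → Prop
  | 0 => fun _ => True
  | (r + 1) => fun p => ∀ B : Finset P, B.card ≤ s → ∃ p₁ p₂, p₁ ≠ p₂ ∧ CB mem s r p₁ ∧
      CB mem s r p₂ ∧ (∀ b ∈ B, (mem p₁ b ↔ mem p b)) ∧ (∀ b ∈ B, (mem p₂ b ↔ mem p b))

lemma CB.tr {mem : Ω → P → Prop} (hext : ∀ p q, (∀ b, (mem p b ↔ mem q b)) → p = q) {s : ℕ} :
    ∀ (r : ℕ) (p : Ω) (B : Finset P), CB mem s r p → B.card + r ≤ s →
      Tr mem (fun _ => True) r (fun q => ∀ b ∈ B, (mem q b ↔ mem p b)) := by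
  classical
  intro r
  induction r with
  | zero => intro p B _ _; exact ⟨p, fun _ _ => Iff.rfl⟩
  | succ r ih =>
    intro p B hp hB
    obtain ⟨p₁, p₂, hne, h1, h2, a1, a2⟩ := hp B (by omega)
    have key : ∀ q₁ q₂ : Ω, CB mem s r q₁ → CB mem s r q₂ → (∀ b ∈ B, (mem q₁ b ↔ mem p b)) →
        (∀ b ∈ B, (mem q₂ b ↔ mem p b)) → ∀ c, mem q₁ c → ¬ mem q₂ c →
        Tr mem (fun _ => True) (r + 1) (fun q => ∀ b ∈ B, (mem q b ↔ mem p b)) := by
      intro q₁ q₂ h1 h2 a1 a2 c hc1 hc2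
      have hc : (insert c B).card + r ≤ s := by
        have := Finset.card_insert_le c B
        omega
      refine ⟨c, trivial, (ih q₁ _ h1 hc).mono (fun _ h => h) ?_,
        (ih q₂ _ h2 hc).mono (fun _ h => h) ?_⟩
      · intro q hq
        exact ⟨fun b hb => (hq b (Finset.mem_insert_of_mem hb)).trans (a1 b hb),
          (hq c (Finset.mem_insert_self _ _)).2 hc1⟩
      · intro q hq
        exact ⟨fun b hb => (hq b (Finset.mem_insert_of_mem hb)).trans (a2 b hb),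
          fun h => hc2 ((hq c (Finset.mem_insert_self _ _)).1 h)⟩
    have : ∃ c, ¬ (mem p₁ c ↔ mem p₂ c) := by
      by_contra hcon
      push Not at hcon
      exact hne (hext _ _ hcon)
    obtain ⟨c, hc⟩ := this
    by_cases h : mem p₁ c
    · exact key p₁ p₂ h1 h2 a1 a2 c h (by tauto)
    · exact key p₂ p₁ h2 h1 a2 a1 c (by tauto) h

/-- Towers of limit maps exist. -/
lemma Thick.tower [Nonempty P] {mem : Ω → P → Prop} {τ H : ℕ}
    (hlim : ∀ d : P → Prop, (∀ B : Finset P, B.card ≤ τ → ∃ p, ∀ b ∈ B, (mem p b ↔ d b)) →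
      ∃ p, ∀ b, (mem p b ↔ d b))
    (hrk : ¬ Tr mem (fun _ => True) H (fun _ => True))
    {D : Ω → Ω → Prop} {U₁ : Ω → Ω} (hD : Thick D (fun X Y b => (mem Y b ↔ mem (U₁ X) b)))
    (h : ℕ) : ∃ U : ℕ → Ω → Ω, (∀ X, U 0 X = X) ∧ U 1 = U₁ ∧ Thick D (TF mem U h) := by
  induction h with
  | zero =>
    refine ⟨fun i => if i = 0 then id else U₁, fun X => by simp, by simp,
      hD.mono (fun _ _ h => h) ?_⟩
    intro X Y b _ hb i hi
    obtain rfl : i = 0 := by omega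
    simpa using hb
  | succ h ih =>
    obtain ⟨U, h0, h1, hU⟩ := ih
    obtain ⟨p, hp⟩ := Thick.extend hlim (TF mem U h) (U (h + 1)) H D (fun _ _ => True) hU
      (fun _ _ _ => ⟨trivial, hrk⟩)
    refine ⟨Function.update U (h + 2) p, fun X => ?_, ?_, hp.mono (fun _ _ h => h) ?_⟩
    · rw [Function.update_of_ne (by omega)]; exact h0 X
    · rw [Function.update_of_ne (by omega)]; exact h1
    · intro X Y b _ hb i hi
      rw [Function.update_of_ne (by omega)]
      by_cases hi' : i = h + 1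
      · subst hi'
        rw [Function.update_self]
        exact hb.2
      · rw [Function.update_of_ne (by omega)]
        exact hb.1 i (by omega)

/-- Descending along a tower. -/
lemma walk {mem : Ω → P → Prop} {U : ℕ → Ω → Ω} {h t : ℕ} {D : Ω → Ω → Prop} {K : Ω → Prop}
    {B : Finset P} (hB : B.card ≤ t) (l r : ℕ) :
    ∀ (i : ℕ) (X : Ω), Lev D (TF mem U h) t K (i + r) X → l + i ≤ h + 1 →
      ∃ Z, Lev D (TF mem U h) t K r Z ∧ ((i = 0 ∧ Z = X) ∨ Relation.TransGen D X Z) ∧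
        ∀ b ∈ B, (mem (U l Z) b ↔ mem (U (l + i) X) b) := by
  intro i
  induction i with
  | zero =>
    intro X hX _
    exact ⟨X, by simpa using hX, Or.inl ⟨rfl, rfl⟩, fun _ _ => Iff.rfl⟩
  | succ i ih =>
    intro X hX hl
    have e : i + 1 + r = (i + r) + 1 := by omega
    rw [e] at hX
    obtain ⟨Y, ⟨hXY, hY⟩, hb⟩ := hX.2 B hB
    obtain ⟨Z, hZ, ht, hz⟩ := ih Y hY (by omega)
    refine ⟨Z, hZ, Or.inr ?_, fun b hb' => (hz b hb').trans (hb b hb' (l + i) (by omega))⟩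
    rcases ht with ⟨-, rfl⟩ | ht
    · exact Relation.TransGen.single hXY
    · exact Relation.TransGen.head hXY ht

/-- Greedy embedding of a tree. -/
lemma embed {mem : Ω → P → Prop} {Adj : Ω → Ω → Prop} {m : ℕ}
    (hsym : ∀ p q, Adj p q → Adj q p) (hirr : ∀ p, ¬ Adj p p)
    (hloc : ∀ p q, ∃ B : Finset P, B.card ≤ m ∧
      ∀ p', (∀ b ∈ B, (mem p' b ↔ mem p b)) → (Adj p' q ↔ Adj p q))
    {U : ℕ → Ω → Ω} {h t N M : ℕ} {D : Ω → Ω → Prop} {K : Ω → Prop}
    (hU0 : ∀ X, U 0 X = X)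
    (hK1 : ∀ X, K X → Adj X (U 1 X))
    (hK2 : ∀ X Y, K X → K Y → ¬ Adj (U 1 X) (U 1 Y))
    (hK3 : ∀ X j, K X → 2 ≤ j → j ≤ h + 1 → ¬ Adj X (U j X))
    (hN : N ≤ h) (ht : (M + 1) * (N + 1) * (m + m) ≤ t)
    (hroot : ∃ X, Lev D (TF mem U h) t K N X) :
    ∀ (n : ℕ) (α : Type) [Fintype α] (T : SimpleGraph α), T.IsTree → Fintype.card α = n + 1 →
      n ≤ M → ∀ r, r + n ≤ N → ∃ X : α → Ω, (∀ a, Lev D (TF mem U h) t K r (X a)) ∧
        (∀ a b j, j ≤ r → Adj (X a) (U j (X b)) → (a = b ∧ j = 1) ∨ (j = 0 ∧ T.Adj a b)) ∧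
        (∀ a b, T.Adj a b → Adj (X a) (X b)) := by
  classical
  have hself : ∀ X j, K X → j ≤ h + 1 → Adj X (U j X) → j = 1 := by
    intro X j hX hj ha
    by_contra hne
    rcases Nat.eq_zero_or_pos j with rfl | hpos
    · rw [hU0] at ha; exact hirr _ ha
    · exact hK3 X j hX (by omega) hj ha
  have hmt : m ≤ t := by
    refine le_trans ?_ ht
    have : 1 ≤ (M + 1) * (N + 1) := Nat.mul_pos (by omega) (by omega)
    nlinarith
  choose Bf hBf hBl using hloc
  intro n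
  induction n with
  | zero =>
    intro α _ T hT hc _ r hr
    obtain ⟨X, hX⟩ := hroot
    have : Subsingleton α := Fintype.card_le_one_iff_subsingleton.1 (by omega)
    refine ⟨fun _ => X, fun _ => hX.anti (by omega), fun a b j hj ha => Or.inl
      ⟨Subsingleton.elim _ _, hself X j hX.base (by omega) ha⟩, fun a b hab => ?_⟩
    exact (hab.ne (Subsingleton.elim _ _)).elim
  | succ n ih =>
    intro α _ T hT hc hn r hr
    have : Nontrivial α := Fintype.one_lt_card_iff_nontrivial.1 (by omega)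
    obtain ⟨v, hv⟩ := hT.exists_vert_degree_one_of_nontrivial
    have hT' : (T.induce ({v}ᶜ : Set α)).IsTree :=
      ⟨hT.connected.induce_compl_singleton_of_degree_eq_one hv, hT.isAcyclic.induce _⟩
    obtain ⟨u, huv, hu⟩ := SimpleGraph.degree_eq_one_iff_existsUnique_adj.1 hv
    have hcard : Fintype.card ({v}ᶜ : Set α) = n + 1 := by
      rw [Fintype.card_compl_set]
      simp [hc]
    obtain ⟨X, hX1, hX2, hX3⟩ := ih _ (T.induce ({v}ᶜ : Set α)) hT' hcard (by omega) (r + 1)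
      (by omega)
    let u' : ({v}ᶜ : Set α) := ⟨u, huv.ne'⟩
    let B : Finset P := (Finset.univ ×ˢ Finset.range (r + 1)).biUnion
      (fun x : ({v}ᶜ : Set α) × ℕ =>
        Bf (U 1 (X u')) (U x.2 (X x.1)) ∪ Bf (U (x.2 + 1) (X u')) (X x.1))
    have hB : B.card ≤ t := by
      refine Finset.card_biUnion_le.trans (le_trans (Finset.sum_le_card_nsmul _ _ (m + m) ?_) ?_)
      · intro x _
        exact (Finset.card_union_le _ _).trans (Nat.add_le_add (hBf _ _) (hBf _ _))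
      · rw [Finset.card_product, Finset.card_univ, hcard, Finset.card_range, smul_eq_mul]
        refine le_trans (Nat.mul_le_mul_right _ (Nat.mul_le_mul ?_ ?_)) ht <;> omega
    obtain ⟨Y, ⟨hXY, hY⟩, hb⟩ := (hX1 u').2 B hB
    have hA : ∀ a j, j ≤ r → (Adj Y (U j (X a)) ↔ Adj (U 1 (X u')) (U j (X a))) := by
      intro a j hj
      refine hBl _ _ _ (fun b hb' => ?_)
      have := hb b (Finset.mem_biUnion.2 ⟨(a, j), by simp; omega, Finset.mem_union_left _ hb'⟩)
        0 (by omega)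
      rwa [hU0] at this
    have hC : ∀ a j, j ≤ r → (Adj (U j Y) (X a) ↔ Adj (U (j + 1) (X u')) (X a)) := by
      intro a j hj
      refine hBl _ _ _ (fun b hb' => ?_)
      exact hb b (Finset.mem_biUnion.2 ⟨(a, j), by simp; omega, Finset.mem_union_right _ hb'⟩)
        j (by omega)
    have hstar : ∀ a j, 1 ≤ j → j ≤ r → ¬ Adj (U 1 (X u')) (U j (X a)) := by
      intro a j hj1 hj hadj
      obtain ⟨i, rfl⟩ : ∃ i, j = 1 + i := ⟨j - 1, by omega⟩
      obtain ⟨Z, hZ, -, hz⟩ := walk ((hBf (U (1 + i) (X a)) (U 1 (X u'))).trans hmt) 1 0 i (X a)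
        ((hX1 a).anti (by omega)) (by omega)
      exact hK2 Z (X u') hZ.base (hX1 u').base ((hBl _ _ _ hz).2 (hsym _ _ hadj))
    have hYu : Adj Y (X u') := by
      have := (hC u' 0 (by omega)).2 (hsym _ _ (hK1 _ (hX1 u').base))
      rwa [hU0] at this
    refine ⟨fun a => if ha : a = v then Y else X ⟨a, ha⟩, fun a => ?_, fun a b j hj => ?_,
      fun a b hab => ?_⟩
    · by_cases ha : a = v
      · simp only [dif_pos ha]; exact hY
      · simp only [dif_neg ha]; exact (hX1 _).pred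
    · by_cases ha : a = v <;> by_cases hb' : b = v
      · simp only [dif_pos ha, dif_pos hb']
        intro hadj
        exact Or.inl ⟨ha.trans hb'.symm, hself Y j hY.base (by omega) hadj⟩
      · simp only [dif_pos ha, dif_neg hb']
        intro hadj
        rw [hA _ j hj] at hadj
        rcases Nat.eq_zero_or_pos j with rfl | hpos
        · rw [hU0] at hadj
          rcases hX2 _ _ 1 (by omega) (hsym _ _ hadj) with ⟨h1, -⟩ | ⟨h1, -⟩
          · have : b = u := congrArg Subtype.val h1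
            exact Or.inr ⟨rfl, by rw [ha, this]; exact huv⟩
          · omega
        · exact (hstar _ j hpos hj hadj).elim
      · simp only [dif_neg ha, dif_pos hb']
        intro hadj
        have h2 := hsym _ _ ((hC _ j hj).1 (hsym _ _ hadj))
        rcases hX2 _ _ (j + 1) (by omega) h2 with ⟨h1, h3⟩ | ⟨h1, -⟩
        · have : a = u := congrArg Subtype.val h1
          exact Or.inr ⟨by omega, by rw [hb', this]; exact huv.symm⟩
        · omega
      · simp only [dif_neg ha, dif_neg hb']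
        intro hadj
        rcases hX2 _ _ j (by omega) hadj with ⟨h1, h3⟩ | ⟨h1, h3⟩
        · exact Or.inl ⟨congrArg Subtype.val h1, h3⟩
        · exact Or.inr ⟨h1, h3⟩
    · by_cases ha : a = v <;> by_cases hb' : b = v
      · exact (hab.ne (ha.trans hb'.symm)).elim
      · simp only [dif_pos ha, dif_neg hb']
        obtain rfl : b = u := hu b (ha ▸ hab)
        exact hYu
      · simp only [dif_neg ha, dif_pos hb']
        obtain rfl : a = u := hu a (hb' ▸ hab.symm)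
        exact hsym _ _ hYu
      · simp only [dif_neg ha, dif_neg hb']
        exact hX3 ⟨a, ha⟩ ⟨b, hb'⟩ hab

/-- Finite colourability of a level. -/
def Col (mem : Ω → P → Prop) (Adj : Ω → Ω → Prop) (s d : ℕ) : Prop :=
  ∃ (α : Type) (_ : Finite α) (κ : Ω → α),
    ∀ X Y, CB mem s d X → CB mem s d Y → Adj X Y → κ X ≠ κ Y

/-- Oriented edges inside a level. -/
def Arc (mem : Ω → P → Prop) (Adj : Ω → Ω → Prop) (s ρ : ℕ) (X Y : Ω) : Prop :=
  CB mem s ρ X ∧ CB mem s ρ Y ∧ Adj X Y ∧ WellOrderingRel Y X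

/-- The rank `d` is reached by limits of neighbourhoods. -/
def Th (mem : Ω → P → Prop) (Adj : Ω → Ω → Prop) (s ρ d : ℕ) : Prop :=
  ∃ U : Ω → Ω, Thick (fun X Y => Arc mem Adj s ρ X Y ∧ CB mem s d (U X) ∧ Adj X (U X))
    (fun X Y b => (mem Y b ↔ mem (U X) b))

lemma th_start [Nonempty P] {mem : Ω → P → Prop} {Adj : Ω → Ω → Prop} {m τ H s ρ : ℕ}
    (hsym : ∀ p q, Adj p q → Adj q p) (hirr : ∀ p, ¬ Adj p p)
    (hloc : ∀ p q, ∃ B : Finset P, B.card ≤ m ∧
      ∀ p', (∀ b ∈ B, (mem p' b ↔ mem p b)) → (Adj p' q ↔ Adj p q))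
    (hext : ∀ p q, (∀ b, (mem p b ↔ mem q b)) → p = q)
    (hlim : ∀ d : P → Prop, (∀ B : Finset P, B.card ≤ τ → ∃ p, ∀ b ∈ B, (mem p b ↔ d b)) →
      ∃ p, ∀ b, (mem p b ↔ d b))
    (hrk : ¬ Tr mem (fun _ => True) H (fun _ => True))
    (hc : ¬ Col mem Adj s ρ) : Th mem Adj s ρ (ρ + 1) := by
  classical
  have h0 : Thick (Arc mem Adj s ρ) (fun _ _ (_ : P) => True) := by
    intro t α _ κ
    have : ∃ X Y, Arc mem Adj s ρ X Y ∧ κ Y = κ X := by
      by_contra hcon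
      refine hc ⟨α, inferInstance, κ, fun X Y hX hY hXY he => hcon ?_⟩
      rcases trichotomous_of (@WellOrderingRel Ω) X Y with h | h | h
      · exact ⟨Y, X, ⟨hY, hX, hsym _ _ hXY, h⟩, he⟩
      · exact (hirr Y (h ▸ hXY)).elim
      · exact ⟨X, Y, ⟨hX, hY, hXY, h⟩, he.symm⟩
    obtain ⟨X, Y, h⟩ := this
    exact ⟨X, fun B _ => ⟨Y, h, fun _ _ => trivial⟩⟩
  obtain ⟨p, hp⟩ := Thick.extend hlim _ id H _ (fun _ _ => True) h0 (fun _ _ _ => ⟨trivial, hrk⟩)
  obtain ⟨i, hi⟩ := hp.part (t₀ := 0) (fun _ => ∅) (by simp)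
    (fun (i : Bool) X Y => Arc mem Adj s ρ X Y ∧ (Y = p X ↔ i = true)) (by
      intro X Y h _
      by_cases hy : Y = p X
      · exact ⟨true, h, by simp [hy]⟩
      · exact ⟨false, h, by simp [hy]⟩)
  cases i with
  | true =>
    refine (not_thick_of_fun (r := @WellOrderingRel Ω) (IsWellFounded.wf) ?_ ?_ hi).elim
    · intro X Y h; exact h.1.2.2.2
    · intro X Y Y' h h'
      exact (h.2.2 rfl).trans (h'.2.2 rfl).symm
  | false =>
    refine ⟨p, fun t α _ κ => ?_⟩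
    obtain ⟨X, hX⟩ := hi (max t (max (s + 1) m)) α κ
    have h1 : CB mem s (ρ + 1) (p X) := by
      intro B hB
      obtain ⟨Y, ⟨⟨hY, hne⟩, -⟩, hb⟩ := hX B (by omega)
      have : ∃ c, ¬ (mem Y c ↔ mem (p X) c) := by
        by_contra hcon
        push Not at hcon
        simpa using hne.1 (hext _ _ hcon)
      obtain ⟨c, hc⟩ := this
      obtain ⟨Y', ⟨⟨hY', -⟩, -⟩, hb'⟩ := hX (insert c B) (by
        have := Finset.card_insert_le c B
        omega)
      refine ⟨Y, Y', ?_, hY.2.1, hY'.2.1, fun b h => (hb b h).2,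
        fun b h => (hb' b (Finset.mem_insert_of_mem h)).2⟩
      rintro rfl
      exact hc (hb' c (Finset.mem_insert_self _ _)).2
    have h2 : Adj X (p X) := by
      obtain ⟨B, hB, hl⟩ := hloc (p X) X
      obtain ⟨Y, ⟨⟨hY, -⟩, -⟩, hb⟩ := hX B (by omega)
      exact hsym _ _ ((hl Y (fun b h => (hb b h).2)).1 (hsym _ _ hY.2.2.1))
    exact ⟨X, hX.mono (by omega) (fun Y hY => ⟨⟨hY.1.1, h1, h2⟩, hY.2⟩) (fun Y b _ h => h.2)⟩

lemma th_step [Nonempty P] {mem : Ω → P → Prop} {Adj : Ω → Ω → Prop} {m τ H s ρ d : ℕ}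
    (hsym : ∀ p q, Adj p q → Adj q p) (hirr : ∀ p, ¬ Adj p p)
    (hloc : ∀ p q, ∃ B : Finset P, B.card ≤ m ∧
      ∀ p', (∀ b ∈ B, (mem p' b ↔ mem p b)) → (Adj p' q ↔ Adj p q))
    (hlim : ∀ d : P → Prop, (∀ B : Finset P, B.card ≤ τ → ∃ p, ∀ b ∈ B, (mem p b ↔ d b)) →
      ∃ p, ∀ b, (mem p b ↔ d b))
    (hrk : ¬ Tr mem (fun _ => True) H (fun _ => True))
    {β : Type} [Fintype β] {T : SimpleGraph β} (hT : T.IsTree)
    (hfree : ¬ ∃ X : β → Ω, Function.Injective X ∧ ∀ a b, (Adj (X a) (X b) ↔ T.Adj a b))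
    (hc : Col mem Adj s d) (hth : Th mem Adj s ρ d) : Th mem Adj s ρ (d + 1) := by
  classical
  obtain ⟨U₁, hU₁⟩ := hth
  obtain ⟨α₀, _, κ₀, hκ₀⟩ := hc
  have : Nonempty β := hT.connected.nonempty
  obtain ⟨n, hn⟩ : ∃ n, Fintype.card β = n + 1 := ⟨Fintype.card β - 1, by
    have := Fintype.card_pos (α := β)
    omega⟩
  obtain ⟨U, hU0, hU1, hU⟩ := Thick.tower hlim hrk hU₁ (n + 1)
  subst hU1
  let Φ : Ω → Prop := fun X => CB mem s d (U 1 X) ∧ Adj X (U 1 X)
  let μ : Ω → α₀ × Prop × (Fin (n + 3) → Prop) :=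
    fun X => (κ₀ (U 1 X), Φ X, fun j => Adj X (U j X))
  obtain ⟨c, hD⟩ := hU.cls μ
  obtain ⟨X₀, Y₀, h₀⟩ := hD.exists_arc
  have hΦ : ∀ X, μ X = c → Φ X := by
    intro X hX
    have h1 : μ X = μ X₀ := hX.trans h₀.2.1.symm
    have h2 : Φ X = Φ X₀ := congrArg (fun x => x.2.1) h1
    rw [h2]
    exact h₀.1.2
  have hK2 : ∀ X Y, μ X = c → μ Y = c → ¬ Adj (U 1 X) (U 1 Y) := by
    intro X Y hX hY hadj
    exact hκ₀ _ _ (hΦ X hX).1 (hΦ Y hY).1 hadj (congrArg (fun x => x.1) (hX.trans hY.symm))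
  have hj : ∀ X (j : Fin (n + 3)), μ X = c → (Adj X (U j X) ↔ c.2.2 j) := by
    intro X j hX
    rw [← hX]
  by_cases hcase : ∃ j : Fin (n + 3), 2 ≤ (j : ℕ) ∧ c.2.2 j
  · obtain ⟨j, hj2, hjc⟩ := hcase
    refine ⟨U j, fun t α _ κ => ?_⟩
    obtain ⟨X, hX⟩ := (hD.col κ).lev (K := fun X => μ X = c) (fun X Y h => h.1.2.1)
      (t + s + m) j
    have hXa : Adj X (U j X) := (hj X j hX.base).2 hjc
    have hjlt := j.2
    have h1 : CB mem s (d + 1) (U j X) := by
      intro B hB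
      obtain ⟨i, hi⟩ : ∃ i, (j : ℕ) = 2 + i := ⟨j - 2, by omega⟩
      obtain ⟨W, hW, -, hw⟩ := walk (B := B) (by omega) 2 1 i X (hX.anti (by omega)) (by omega)
      rw [← hi] at hw
      obtain ⟨Y, ⟨-, hY⟩, hb⟩ := hW.2 B (by omega)
      obtain ⟨B', hB', hl⟩ := hloc (U 1 W) (U 1 Y)
      obtain ⟨Y', ⟨-, hY'⟩, hb'⟩ := hW.2 (B ∪ B') (by
        have := Finset.card_union_le B B'
        omega)
      refine ⟨U 1 Y, U 1 Y', fun he => ?_, (hΦ Y hY).1, (hΦ Y' hY').1,
        fun b h => (hb b h 1 (by omega)).trans (hw b h),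
        fun b h => (hb' b (Finset.mem_union_left _ h) 1 (by omega)).trans (hw b h)⟩
      refine hK2 W Y hW.base hY ((hl Y' (fun b h => ?_)).1 (he ▸ (hΦ Y' hY').2))
      have := hb' b (Finset.mem_union_right _ h) 0 (by omega)
      rwa [hU0] at this
    refine ⟨X, fun B hB => ?_⟩
    obtain ⟨B', hB', hl⟩ := hloc (U j X) X
    obtain ⟨Z, -, hZ, hz⟩ := walk (B := B ∪ B') (by
        have := Finset.card_union_le B B'
        omega) 0 0 j X hX (by omega)
    rw [hU0, zero_add] at hz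
    have hZ' : CB mem s ρ X ∧ CB mem s ρ Z ∧ WellOrderingRel Z X ∧ κ Z = κ X := by
      rcases hZ with ⟨h, -⟩ | hZ
      · omega
      · clear hz
        induction hZ with
        | single h => exact ⟨h.1.1.1.1, h.1.1.1.2.1, h.1.1.1.2.2.2, h.2⟩
        | tail _ h ih =>
          exact ⟨ih.1, h.1.1.1.2.1, trans_of (@WellOrderingRel Ω) h.1.1.1.2.2.2 ih.2.2.1,
            h.2.trans ih.2.2.2⟩
    refine ⟨Z, ⟨⟨⟨hZ'.1, hZ'.2.1, ?_, hZ'.2.2.1⟩, h1, hXa⟩, hZ'.2.2.2⟩,
      fun b h => hz b (Finset.mem_union_left _ h)⟩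
    exact hsym _ _ ((hl Z (fun b h => hz b (Finset.mem_union_right _ h))).2 (hsym _ _ hXa))
  · exfalso
    obtain ⟨X, hX1, hX2, hX3⟩ := embed hsym hirr hloc (K := fun X => μ X = c) (N := n + 1)
      (M := n) (h := n + 1) hU0 (fun X hX => (hΦ X hX).2) hK2 (by
        intro X j hX h2 hle hadj
        exact hcase ⟨⟨j, by omega⟩, h2, (hj X ⟨j, by omega⟩ hX).1 hadj⟩) le_rfl le_rfl
      (hD.lev (fun X Y h => h.2.1) _ _) n β T hT hn le_rfl 1 (by omega)
    refine hfree ⟨X, fun a b hab => ?_, fun a b => ⟨fun h => ?_, hX3 a b⟩⟩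
    · rcases hX2 a b 1 le_rfl (hab ▸ (hΦ _ (hX1 a).base).2) with h | h
      · exact h.1
      · omega
    · rcases hX2 a b 0 (by omega) (by rwa [hU0]) with h | h
      · omega
      · exact h.2

theorem abstract_col [Nonempty P] {mem : Ω → P → Prop} {Adj : Ω → Ω → Prop} {m τ H : ℕ}
    (hsym : ∀ p q, Adj p q → Adj q p) (hirr : ∀ p, ¬ Adj p p)
    (hloc : ∀ p q, ∃ B : Finset P, B.card ≤ m ∧
      ∀ p', (∀ b ∈ B, (mem p' b ↔ mem p b)) → (Adj p' q ↔ Adj p q))
    (hext : ∀ p q, (∀ b, (mem p b ↔ mem q b)) → p = q)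
    (hlim : ∀ d : P → Prop, (∀ B : Finset P, B.card ≤ τ → ∃ p, ∀ b ∈ B, (mem p b ↔ d b)) →
      ∃ p, ∀ b, (mem p b ↔ d b))
    (hrk : ¬ Tr mem (fun _ => True) H (fun _ => True))
    {β : Type} [Fintype β] {T : SimpleGraph β} (hT : T.IsTree)
    (hfree : ¬ ∃ X : β → Ω, Function.Injective X ∧ ∀ a b, (Adj (X a) (X b) ↔ T.Adj a b)) :
    ∃ (α : Type) (_ : Finite α) (κ : Ω → α), ∀ X Y, Adj X Y → κ X ≠ κ Y := by
  have hemp : ∀ r p, H ≤ r → ¬ CB mem H r p := by
    have hpred : ∀ r p, CB mem H (r + 1) p → CB mem H r p := by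
      intro r
      induction r with
      | zero => intro _ _; trivial
      | succ r ih =>
        intro p hp B hB
        obtain ⟨p₁, p₂, h1, h2, h3, h4⟩ := hp B hB
        exact ⟨p₁, p₂, h1, ih _ h2, ih _ h3, h4⟩
    intro r p hr
    induction hr with
    | refl =>
      intro hp
      exact hrk ((CB.tr hext H p ∅ hp (by simp)).mono (fun _ h => h) (fun _ _ => trivial))
    | step _ ih => exact fun hp => ih (hpred _ _ hp)
  have key : ∀ k ρ, H ≤ ρ + k → Col mem Adj H ρ := by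
    intro k
    induction k with
    | zero =>
      intro ρ hρ
      exact ⟨Unit, inferInstance, fun _ => (), fun X Y hX => (hemp ρ X (by omega) hX).elim⟩
    | succ k ih =>
      intro ρ hρ
      by_contra hc
      have h1 : ∀ i, Th mem Adj H ρ (ρ + 1 + i) := by
        intro i
        induction i with
        | zero => exact th_start hsym hirr hloc hext hlim hrk hc
        | succ i ih2 => exact th_step hsym hirr hloc hlim hrk hT hfree (ih (ρ + 1 + i) (by omega)) ih2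
      obtain ⟨U, hU⟩ := h1 H
      obtain ⟨X, Y, h⟩ := hU.exists_arc
      exact hemp _ _ (by omega) h.2.1
  obtain ⟨α, hα, κ, hκ⟩ := key H 0 (by omega)
  exact ⟨α, hα, κ, fun X Y h => hκ X Y trivial trivial h⟩

end Pool.Agent.H708Z.GS
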