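import Pool.Agent.H708Z.GSUnif

/-!
Stable relations: Boolean combinations of vanishing conditions of finite-rank functions have no
long ladders, so the graphs they define satisfy the bound of `uniform_forest`.
-/

set_option autoImplicit false

universe u

namespace Pool.Agent.H708Z.GS

variable {X Y : Type*}

/-- Relations without long ladders. -/
def Stable (R : X → Y → Prop) : Prop :=
  ∃ m : ℕ, ∀ l : List (X × Y), l.length = m → ¬ l.Pairwise (fun x y => R x.1 y.2 ∧ ¬ R y.1 x.2)

lemma Stable.congr {R R' : X → Y → Prop} (h : Stable R) (e : ∀ x y, R x y ↔ R' x y) :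
    Stable R' := by
  have : R = R' := funext fun x => funext fun y => propext (e x y)
  exact this ▸ h

lemma Stable.not {R : X → Y → Prop} (h : Stable R) : Stable (fun x y => ¬ R x y) := by
  obtain ⟨m, hm⟩ := h
  refine ⟨m, fun l hl hp => hm l.reverse (by simpa using hl) ?_⟩
  rw [List.pairwise_reverse]
  exact hp.imp (fun h => ⟨not_not.1 h.2, h.1⟩)

lemma Stable.and {R R' : X → Y → Prop} (h : Stable R) (h' : Stable R') :
    Stable (fun x y => R x y ∧ R' x y) := by
  obtain ⟨m, hm⟩ := h
  obtain ⟨m', hm'⟩ := h'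
  obtain ⟨N, hN⟩ := list_ramsey (fun x y : X × Y => R y.1 x.2) m' m
  refine ⟨N, fun l hl hp => ?_⟩
  rcases hN l hl.ge with ⟨l', hs, hl', hp'⟩ | ⟨l', hs, hl', hp'⟩
  · exact hm' l' hl' (((hp.sublist hs).and hp').imp (fun h => by tauto))
  · exact hm l' hl' (((hp.sublist hs).and hp').imp (fun h => by tauto))

lemma Stable.or {R R' : X → Y → Prop} (h : Stable R) (h' : Stable R') :
    Stable (fun x y => R x y ∨ R' x y) :=
  (h.not.and h'.not).not.congr (fun _ _ => by tauto)

lemma stable_true : Stable (fun (_ : X) (_ : Y) => True) := by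
  refine ⟨2, fun l hl hp => ?_⟩
  match l, hl with
  | [a, b], _ => simp at hp

lemma Stable.forall {ι : Type*} [Finite ι] {R : ι → X → Y → Prop} (h : ∀ i, Stable (R i)) :
    Stable (fun x y => ∀ i, R i x y) := by
  classical
  have := Fintype.ofFinite ι
  have key : ∀ s : Finset ι, Stable (fun x y => ∀ i ∈ s, R i x y) := by
    intro s
    induction s using Finset.induction_on with
    | empty => exact stable_true.congr (fun _ _ => by simp)
    | insert a s _ ih => exact ((h a).and ih).congr (fun _ _ => by simp)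
  exact (key Finset.univ).congr (fun _ _ => by simp)

lemma Stable.exists {ι : Type*} [Finite ι] {R : ι → X → Y → Prop} (h : ∀ i, Stable (R i)) :
    Stable (fun x y => ∃ i, R i x y) :=
  (Stable.forall (fun i => (h i).not)).not.congr (fun _ _ => by simp)

variable {K : Type*} [Field K]

/-- Functions that are finite sums of products of a function of each variable. -/
def FinRank (f : X → Y → K) : Prop :=
  ∃ (ι : Type) (_ : Fintype ι) (φ : X → ι → K) (ψ : Y → ι → K),
    ∀ x y, f x y = ∑ s, φ x s * ψ y s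

lemma FinRank.left (g : X → K) : FinRank (fun x (_ : Y) => g x) :=
  ⟨Unit, inferInstance, fun x _ => g x, fun _ _ => 1, fun x y => by simp⟩

lemma FinRank.right (g : Y → K) : FinRank (fun (_ : X) y => g y) :=
  ⟨Unit, inferInstance, fun _ _ => 1, fun y _ => g y, fun x y => by simp⟩

lemma FinRank.add {f g : X → Y → K} (hf : FinRank f) (hg : FinRank g) :
    FinRank (fun x y => f x y + g x y) := by
  obtain ⟨ι, _, φ, ψ, h⟩ := hf
  obtain ⟨ι', _, φ', ψ', h'⟩ := hg
  exact ⟨ι ⊕ ι', inferInstance, fun x => Sum.elim (φ x) (φ' x), fun y => Sum.elim (ψ y) (ψ' y),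
    fun x y => by simp [h, h', Fintype.sum_sum_type]⟩

lemma FinRank.mul {f g : X → Y → K} (hf : FinRank f) (hg : FinRank g) :
    FinRank (fun x y => f x y * g x y) := by
  obtain ⟨ι, _, φ, ψ, h⟩ := hf
  obtain ⟨ι', _, φ', ψ', h'⟩ := hg
  refine ⟨ι × ι', inferInstance, fun x s => φ x s.1 * φ' x s.2, fun y s => ψ y s.1 * ψ' y s.2,
    fun x y => ?_⟩
  simp only [h, h', Fintype.sum_prod_type, Finset.sum_mul_sum]
  exact Finset.sum_congr rfl fun _ _ => Finset.sum_congr rfl fun _ _ => by ring

lemma FinRank.congr {f g : X → Y → K} (hf : FinRank f) (e : ∀ x y, f x y = g x y) : FinRank g := by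
  have : f = g := funext fun x => funext fun y => e x y
  exact this ▸ hf

lemma FinRank.sub {f g : X → Y → K} (hf : FinRank f) (hg : FinRank g) :
    FinRank (fun x y => f x y - g x y) :=
  (hf.add ((FinRank.left (fun _ => (-1 : K))).mul hg)).congr (fun _ _ => by ring)

lemma FinRank.sum {ι : Type*} (s : Finset ι) {f : ι → X → Y → K} (h : ∀ i, FinRank (f i)) :
    FinRank (fun x y => ∑ i ∈ s, f i x y) := by
  classical
  induction s using Finset.induction_on with
  | empty => exact (FinRank.left (fun _ => (0 : K))).congr (fun _ _ => by simp)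
  | insert a s ha ih => exact ((h a).add ih).congr (fun _ _ => by rw [Finset.sum_insert ha])

lemma FinRank.stable {f : X → Y → K} (hf : FinRank f) : Stable (fun x y => f x y = 0) := by
  classical
  obtain ⟨ι, _, φ, ψ, h⟩ := hf
  refine ⟨2 * (Fintype.card ι + 1), fun l hl hp => ?_⟩
  have q := List.pairwise_iff_getElem.1 hp
  let A : Matrix (Fin (Fintype.card ι + 1)) ι K :=
    fun i s => φ (l[2 * (i : ℕ) + 1]'(by omega)).1 s
  let B : Matrix ι (Fin (Fintype.card ι + 1)) K :=
    fun s j => ψ (l[2 * (j : ℕ)]'(by omega)).2 s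
  have hAB : ∀ i j, (A * B) i j = f (l[2 * (i : ℕ) + 1]'(by omega)).1 (l[2 * (j : ℕ)]'(by omega)).2 := by
    intro i j
    rw [h, Matrix.mul_apply]
  have hdet : (A * B).det ≠ 0 := by
    rw [Matrix.det_of_isLowerTriangular]
    · refine Finset.prod_ne_zero_iff.2 (fun i _ => ?_)
      rw [hAB]
      exact (q _ _ _ _ (by omega)).2
    · intro i j hij
      have : (i : ℕ) < j := hij
      rw [hAB]
      exact (q _ _ _ _ (by omega)).1
  have h1 := Matrix.rank_of_isUnit (A * B) ((Matrix.isUnit_iff_isUnit_det _).2 (Ne.isUnit hdet))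
  have h2 := (Matrix.rank_mul_le_left A B).trans (Matrix.rank_le_card_width A)
  rw [h1, Fintype.card_fin] at h2
  omega

theorem gs_of_stable {R : X → X → Prop} (hR : Stable R) {β : Type} [Fintype β]
    {F : SimpleGraph β} (hF : F.IsAcyclic) (k : ℕ) :
    ∃ c : ℕ, ∀ (V : Type u) (G : SimpleGraph V) (π : V → X),
      (∀ v w, v ≠ w → (G.Adj v w ↔ R (π v) (π w))) → ¬ Nonempty (F ↪g G) →
      G.CliqueFree k → G.Colorable c := by
  obtain ⟨m, hm⟩ := hR
  obtain ⟨c, hc⟩ := uniform_forest.{u} hF m k
  refine ⟨c, fun V G π hπ h1 h2 => hc V G h1 (fun ⟨f⟩ => ?_) h2⟩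
  refine hm (List.ofFn (fun i : Fin m => (π (f (Sum.inl i)), π (f (Sum.inr i))))) (by simp) ?_
  rw [List.pairwise_ofFn]
  have e : ∀ i j : Fin m, R (π (f (Sum.inl i))) (π (f (Sum.inr j))) ↔ i ≤ j := by
    intro i j
    rw [← hπ _ _ (fun h => by simpa using f.injective h), f.map_adj_iff, halfGraph_lr]
  intro i j hij
  exact ⟨(e i j).2 hij.le, fun h => absurd ((e j i).1 h) (not_le.2 hij)⟩

end Pool.Agent.H708Z.GS
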