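import Mathlib

/-!
Thickness calculus for directed relations: a relation `D` is thick for a feature `F` if under
every finite colouring some vertex has a generic monochromatic out-neighbourhood.
-/

set_option autoImplicit false

namespace Pool.Agent.H708Z.GS

variable {Ω P : Type*}

/-- `Z` is `t`-generic for the feature `F`. -/
def Gen (F : Ω → P → Prop) (t : ℕ) (Z : Ω → Prop) : Prop :=
  ∀ B : Finset P, B.card ≤ t → ∃ Y, Z Y ∧ ∀ b ∈ B, F Y b

/-- Thick relations. -/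
def Thick (D : Ω → Ω → Prop) (F : Ω → Ω → P → Prop) : Prop :=
  ∀ (t : ℕ) (α : Type) [Finite α] (κ : Ω → α), ∃ X, Gen (F X) t (fun Y => D X Y ∧ κ Y = κ X)

lemma Gen.mono {F F' : Ω → P → Prop} {t t' : ℕ} {Z Z' : Ω → Prop} (h : Gen F t Z)
    (ht : t' ≤ t) (hZ : ∀ Y, Z Y → Z' Y) (hF : ∀ Y b, Z Y → F Y b → F' Y b) : Gen F' t' Z' := by
  intro B hB
  obtain ⟨Y, hY, hb⟩ := h B (hB.trans ht)
  exact ⟨Y, hZ Y hY, fun b hb' => hF Y b hY (hb b hb')⟩

lemma Gen.exists {F : Ω → P → Prop} {t : ℕ} {Z : Ω → Prop} (h : Gen F t Z) : ∃ Y, Z Y := by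
  obtain ⟨Y, hY, -⟩ := h ∅ (by simp)
  exact ⟨Y, hY⟩

lemma Thick.mono {D D' : Ω → Ω → Prop} {F F' : Ω → Ω → P → Prop} (h : Thick D F)
    (hD : ∀ X Y, D X Y → D' X Y) (hF : ∀ X Y b, D X Y → F X Y b → F' X Y b) : Thick D' F' := by
  intro t α _ κ
  obtain ⟨X, hX⟩ := h t α κ
  exact ⟨X, hX.mono le_rfl (fun Y hY => ⟨hD X Y hY.1, hY.2⟩) (fun Y b hY => hF X Y b hY.1)⟩

lemma Thick.exists_arc {D : Ω → Ω → Prop} {F : Ω → Ω → P → Prop} (h : Thick D F) :
    ∃ X Y, D X Y := by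
  obtain ⟨X, hX⟩ := h 0 Unit (fun _ => ())
  obtain ⟨Y, hY⟩ := hX.exists
  exact ⟨X, Y, hY.1⟩

lemma Thick.col {D : Ω → Ω → Prop} {F : Ω → Ω → P → Prop} (h : Thick D F)
    {α : Type} [Finite α] (κ : Ω → α) : Thick (fun X Y => D X Y ∧ κ Y = κ X) F := by
  intro t β _ μ
  obtain ⟨X, hX⟩ := h t (α × β) (fun X => (κ X, μ X))
  refine ⟨X, hX.mono le_rfl (fun Y hY => ?_) (fun _ _ _ h => h)⟩
  have := Prod.ext_iff.1 hY.2
  exact ⟨⟨hY.1, this.1⟩, this.2⟩

/-- Partition lemma. -/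
lemma Thick.part {D : Ω → Ω → Prop} {F : Ω → Ω → P → Prop} (h : Thick D F)
    {t₀ : ℕ} (B₀ : Ω → Finset P) (hB₀ : ∀ X, (B₀ X).card ≤ t₀)
    {ι : Type} [Finite ι] (E : ι → Ω → Ω → Prop)
    (hE : ∀ X Y, D X Y → (∀ b ∈ B₀ X, F X Y b) → ∃ i, E i X Y) : ∃ i, Thick (E i) F := by
  classical
  by_contra hcon
  push Not at hcon
  have h1 : ∀ i, ∃ (t : ℕ) (α : Type) (_ : Finite α) (κ : Ω → α), ∀ X, ∃ B : Finset P,
      B.card ≤ t ∧ ∀ Y, E i X Y → κ Y = κ X → ¬ ∀ b ∈ B, F X Y b := by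
    intro i
    have := hcon i
    unfold Thick at this
    push Not at this
    obtain ⟨t, α, hα, κ, hκ⟩ := this
    refine ⟨t, α, hα, κ, fun X => ?_⟩
    have h2 := hκ X
    unfold Gen at h2
    push Not at h2
    obtain ⟨B, hB, h3⟩ := h2
    refine ⟨B, hB, fun Y h4 h5 h6 => ?_⟩
    obtain ⟨b, hb, h7⟩ := h3 Y ⟨h4, h5⟩
    exact h7 (h6 b hb)
  choose t α hα κ B hB hcov using h1
  have := Fintype.ofFinite ι
  obtain ⟨X, hX⟩ := h (t₀ + ∑ i, t i) (∀ i, α i) (fun X i => κ i X)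
  obtain ⟨Y, ⟨hY, hc⟩, hb⟩ := hX (B₀ X ∪ Finset.univ.biUnion (fun i => B i X)) (by
    refine (Finset.card_union_le _ _).trans (Nat.add_le_add (hB₀ X) ?_)
    exact Finset.card_biUnion_le.trans (Finset.sum_le_sum fun i _ => hB i X))
  obtain ⟨i, hi⟩ := hE X Y hY (fun b hb' => hb b (Finset.mem_union_left _ hb'))
  refine hcov i X Y hi (congrFun hc i) (fun b hb' => hb b (Finset.mem_union_right _ ?_))
  exact Finset.mem_biUnion.2 ⟨i, Finset.mem_univ _, hb'⟩

/-- Restriction to one colour class. -/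
lemma Thick.cls {D : Ω → Ω → Prop} {F : Ω → Ω → P → Prop} (h : Thick D F)
    {α : Type} [Finite α] (κ : Ω → α) :
    ∃ a, Thick (fun X Y => D X Y ∧ κ X = a ∧ κ Y = a) F :=
  (h.col κ).part (t₀ := 0) (fun _ => ∅) (by simp) _
    (fun X Y hXY _ => ⟨κ X, hXY.1, rfl, hXY.2⟩)

/-- A relation of out-degree at most one inside a well-founded relation is not thick. -/
lemma not_thick_of_fun {D : Ω → Ω → Prop} {F : Ω → Ω → P → Prop} {r : Ω → Ω → Prop}
    (hr : WellFounded r) (hD : ∀ X Y, D X Y → r Y X)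
    (h1 : ∀ X Y Y', D X Y → D X Y' → Y = Y') : ¬ Thick D F := by
  intro h
  let w : Ω → Prop := hr.fix (fun X ih => ∃ Y, ∃ hY : D X Y, ¬ ih Y (hD X Y hY))
  have hw : ∀ X, w X ↔ ∃ Y, D X Y ∧ ¬ w Y := by
    intro X
    have : w X = ∃ Y, ∃ _ : D X Y, ¬ w Y := hr.fix_eq _ X
    rw [this]
    simp
  obtain ⟨X, hX⟩ := h 0 Prop w
  obtain ⟨Y, hY, hc⟩ := hX.exists
  by_cases hy : w Y
  · have hx : w X := hc ▸ hy
    obtain ⟨Y', hY', hn⟩ := (hw X).1 hx
    exact hn (h1 X Y Y' hY hY' ▸ hy)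
  · have hx : w X := (hw X).2 ⟨Y, hY, hy⟩
    exact hy (hc ▸ hx)

/-- Level sets. -/
def Lev (D : Ω → Ω → Prop) (F : Ω → Ω → P → Prop) (t : ℕ) (K : Ω → Prop) : ℕ → Ω → Prop
  | 0 => K
  | (i + 1) => fun X => K X ∧ Gen (F X) t (fun Y => D X Y ∧ Lev D F t K i Y)

lemma Lev.base {D : Ω → Ω → Prop} {F : Ω → Ω → P → Prop} {t : ℕ} {K : Ω → Prop} {i : ℕ} {X : Ω}
    (h : Lev D F t K i X) : K X := by
  cases i with
  | zero => exact h
  | succ i => exact h.1

lemma Lev.pred {D : Ω → Ω → Prop} {F : Ω → Ω → P → Prop} {t : ℕ} {K : Ω → Prop} :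
    ∀ {i : ℕ} {X : Ω}, Lev D F t K (i + 1) X → Lev D F t K i X := by
  intro i
  induction i with
  | zero => intro X h; exact h.1
  | succ i ih =>
    intro X h
    exact ⟨h.1, h.2.mono le_rfl (fun Y hY => ⟨hY.1, ih hY.2⟩) (fun _ _ _ h => h)⟩

lemma Lev.anti {D : Ω → Ω → Prop} {F : Ω → Ω → P → Prop} {t : ℕ} {K : Ω → Prop} {i j : ℕ}
    {X : Ω} (h : Lev D F t K j X) (hij : i ≤ j) : Lev D F t K i X := by
  induction hij with
  | refl => exact h
  | step _ ih => exact ih h.pred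

lemma Thick.lev {D : Ω → Ω → Prop} {F : Ω → Ω → P → Prop} (h : Thick D F) {K : Ω → Prop}
    (hK : ∀ X Y, D X Y → K X) (t N : ℕ) : ∃ X, Lev D F t K N X := by
  obtain ⟨X, hX⟩ := h t (Fin (N + 1) → Prop) (fun X i => Lev D F t K i X)
  obtain ⟨Y₀, hY₀⟩ := hX.exists
  have hk : K X := hK X Y₀ hY₀.1
  have : ∀ i, i ≤ N → Lev D F t K i X := by
    intro i
    induction i with
    | zero => intro _; exact hk
    | succ i ih =>
      intro hi
      refine ⟨hk, hX.mono le_rfl (fun Y hY => ⟨hY.1, ?_⟩) (fun _ _ _ h => h)⟩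
      have h2 := congrFun hY.2 ⟨i, by omega⟩
      simp only at h2
      rw [h2]
      exact ih (by omega)
  exact ⟨X, this N le_rfl⟩

lemma exists_enum [Nonempty P] {t : ℕ} (B : Finset P) (hB : B.card ≤ t) :
    ∃ f : Fin t → P, ∀ b ∈ B, ∃ s, f s = b := by
  classical
  refine ⟨fun s => B.toList.getD s (Classical.arbitrary P), fun b hb => ?_⟩
  obtain ⟨i, hi, rfl⟩ := List.mem_iff_getElem.1 (Finset.mem_toList.2 hb)
  rw [Finset.length_toList] at hi
  refine ⟨⟨i, by omega⟩, ?_⟩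
  simp only
  rw [List.getD_eq_getElem]

/-- Tree rank at least `e` of the family `C`, with parameters from `S`. -/
def Tr (mem : Ω → P → Prop) (S : P → Prop) : ℕ → (Ω → Prop) → Prop
  | 0 => fun C => ∃ p, C p
  | (e + 1) => fun C => ∃ b, S b ∧ Tr mem S e (fun p => C p ∧ mem p b) ∧
      Tr mem S e (fun p => C p ∧ ¬ mem p b)

lemma Tr.mono {mem : Ω → P → Prop} {S S' : P → Prop} (hS : ∀ b, S b → S' b) :
    ∀ {e : ℕ} {C C' : Ω → Prop}, Tr mem S e C → (∀ p, C p → C' p) → Tr mem S' e C' := by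
  intro e
  induction e with
  | zero =>
    rintro C C' ⟨p, hp⟩ h
    exact ⟨p, h p hp⟩
  | succ e ih =>
    rintro C C' ⟨b, hb, h1, h2⟩ h
    exact ⟨b, hS b hb, ih h1 (fun p hp => ⟨h p hp.1, hp.2⟩), ih h2 (fun p hp => ⟨h p hp.1, hp.2⟩)⟩

lemma Tr.nonempty {mem : Ω → P → Prop} {S : P → Prop} :
    ∀ {e : ℕ} {C : Ω → Prop}, Tr mem S e C → ∃ p, C p := by
  intro e
  induction e with
  | zero => intro C h; exact h
  | succ e ih =>
    rintro C ⟨b, -, h1, -⟩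
    obtain ⟨p, hp⟩ := ih h1
    exact ⟨p, hp.1⟩

lemma Tr.ramsey {mem : Ω → P → Prop} {S S₁ S₂ : P → Prop} (hS : ∀ b, S b → S₁ b ∨ S₂ b) :
    ∀ (n p q : ℕ) {C : Ω → Prop}, p + q = n → Tr mem S (n + 1) C →
      Tr mem S₁ (p + 1) C ∨ Tr mem S₂ (q + 1) C := by
  intro n
  induction n with
  | zero =>
    rintro p q C hpq ⟨b, hb, h1, h2⟩
    obtain rfl : p = 0 := by omega
    obtain rfl : q = 0 := by omega
    rcases hS b hb with h | h
    · exact Or.inl ⟨b, h, h1, h2⟩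
    · exact Or.inr ⟨b, h, h1, h2⟩
  | succ n ih =>
    rintro p q C hpq ⟨b, hb, h1, h2⟩
    rcases hS b hb with h | h
    · cases p with
      | zero => exact Or.inl ⟨b, h, h1.nonempty, h2.nonempty⟩
      | succ p =>
        rcases ih p q (by omega) h1 with h3 | h3
        · rcases ih p q (by omega) h2 with h4 | h4
          · exact Or.inl ⟨b, h, h3, h4⟩
          · exact Or.inr (h4.mono (fun _ h => h) (fun _ h => h.1))
        · exact Or.inr (h3.mono (fun _ h => h) (fun _ h => h.1))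
    · cases q with
      | zero => exact Or.inr ⟨b, h, h1.nonempty, h2.nonempty⟩
      | succ q =>
        rcases ih p q (by omega) h1 with h3 | h3
        · exact Or.inl (h3.mono (fun _ h => h) (fun _ h => h.1))
        · rcases ih p q (by omega) h2 with h4 | h4
          · exact Or.inl (h4.mono (fun _ h => h) (fun _ h => h.1))
          · exact Or.inr ⟨b, h, h3, h4⟩

/-- Large tree rank gives long ladders. -/
lemma Tr.ladder (mem : Ω → P → Prop) (k : ℕ) : ∃ H : ℕ, ∀ (S : P → Prop) (C : Ω → Prop),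
    Tr mem S H C → ∃ l : List (Ω × P), l.length = k ∧ (∀ x ∈ l, C x.1 ∧ S x.2) ∧
      l.Pairwise (fun x y => mem x.1 y.2 ∧ ¬ mem y.1 x.2) := by
  induction k with
  | zero => exact ⟨0, fun S C _ => ⟨[], rfl, by simp, List.Pairwise.nil⟩⟩
  | succ k ih =>
    obtain ⟨H, hH⟩ := ih
    refine ⟨H + H + 1, fun S C h => ?_⟩
    obtain ⟨a, ha⟩ := h.nonempty
    rcases Tr.ramsey (S₁ := fun b => S b ∧ mem a b) (S₂ := fun b => S b ∧ ¬ mem a b)
      (fun b hb => by tauto) (H + H) H H rfl h with ⟨b, hb, -, h2⟩ | ⟨b, hb, h1, -⟩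
    · obtain ⟨l, hl, hm, hp⟩ := hH _ _ h2
      refine ⟨(a, b) :: l, by simp [hl], ?_, List.Pairwise.cons ?_ hp⟩
      · intro x hx
        rcases List.mem_cons.1 hx with rfl | hx
        · exact ⟨ha, hb.1⟩
        · exact ⟨(hm x hx).1.1, (hm x hx).2.1⟩
      · intro x hx
        exact ⟨(hm x hx).2.2, (hm x hx).1.2⟩
    · obtain ⟨l, hl, hm, hp⟩ := hH _ _ h1
      refine ⟨l ++ [(a, b)], by simp [hl], ?_, List.pairwise_append.2 ⟨hp, by simp, ?_⟩⟩
      · intro x hx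
        rcases List.mem_append.1 hx with hx | hx
        · exact ⟨(hm x hx).1.1, (hm x hx).2.1⟩
        · obtain rfl := List.mem_singleton.1 hx
          exact ⟨ha, hb.1⟩
      · intro x hx y hy
        obtain rfl := List.mem_singleton.1 hy
        exact ⟨(hm x hx).1.2, (hm x hx).2.2⟩

/-- Extension lemma: limits along thick relations exist when the tree rank is bounded. -/
lemma Thick.extend [Nonempty P] {mem : Ω → P → Prop} {τ : ℕ}
    (hlim : ∀ d : P → Prop, (∀ B : Finset P, B.card ≤ τ → ∃ p, ∀ b ∈ B, (mem p b ↔ d b)) →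
      ∃ p, ∀ b, (mem p b ↔ d b))
    (F : Ω → Ω → P → Prop) (W : Ω → Ω) :
    ∀ (e : ℕ) (D : Ω → Ω → Prop) (C : Ω → Ω → Prop), Thick D F →
      (∀ X Y, D X Y → C X (W Y) ∧ ¬ Tr mem (fun _ => True) e (C X)) →
      ∃ p : Ω → Ω, Thick D (fun X Y b => F X Y b ∧ (mem (W Y) b ↔ mem (p X) b)) := by
  classical
  intro e
  induction e with
  | zero =>
    intro D C h hC
    obtain ⟨X, Y, hXY⟩ := h.exists_arc
    exact ((hC X Y hXY).2 ⟨_, (hC X Y hXY).1⟩).elim
  | succ e ih =>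
    intro D C h hC
    let d : Ω → P → Prop := fun X b => ¬ Tr mem (fun _ => True) e (fun p => C X p ∧ ¬ mem p b)
    by_cases hth : Thick D (fun X Y b => F X Y b ∧ (mem (W Y) b ↔ d X b))
    · refine ⟨fun X => if h : ∃ p, ∀ b, (mem p b ↔ d X b) then h.choose else X, ?_⟩
      intro t α _ κ
      obtain ⟨X, hX⟩ := hth (max t τ) α κ
      have hex : ∃ p, ∀ b, (mem p b ↔ d X b) := by
        refine hlim _ (fun B hB => ?_)
        obtain ⟨Y, -, hY⟩ := hX B (hB.trans (le_max_right _ _))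
        exact ⟨W Y, fun b hb => (hY b hb).2⟩
      refine ⟨X, hX.mono (le_max_left _ _) (fun _ h => h) (fun Y b _ hb => ⟨hb.1, ?_⟩)⟩
      simp only [dif_pos hex]
      rw [hex.choose_spec b]
      exact hb.2
    · unfold Thick at hth
      push Not at hth
      obtain ⟨t, α, hα, κ, hκ⟩ := hth
      have h1 : ∀ X, ∃ B : Finset P, B.card ≤ t ∧ ∀ Y, D X Y → κ Y = κ X →
          ∃ b ∈ B, ¬ (F X Y b ∧ (mem (W Y) b ↔ d X b)) := by
        intro X
        have h2 := hκ X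
        unfold Gen at h2
        by_contra h3
        apply h2
        intro B hB
        by_contra h4
        refine h3 ⟨B, hB, fun Y h5 h6 => ?_⟩
        by_contra h7
        refine h4 ⟨Y, ⟨h5, h6⟩, fun b hb => ?_⟩
        by_contra h8
        exact h7 ⟨b, hb, h8⟩
      choose B hB hcov using h1
      choose f hf using fun X => exists_enum (B X) (hB X)
      obtain ⟨s, hs⟩ := (h.col κ).part B hB
        (fun (s : Fin t) X Y => D X Y ∧ ¬ (mem (W Y) (f X s) ↔ d X (f X s))) (by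
          intro X Y hXY hF
          obtain ⟨b, hb, hn⟩ := hcov X Y hXY.1 hXY.2
          obtain ⟨s, rfl⟩ := hf X b hb
          exact ⟨s, hXY.1, fun h5 => hn ⟨hF _ hb, h5⟩⟩)
      obtain ⟨p, hp⟩ := ih _ (fun X q => C X q ∧ ¬ (mem q (f X s) ↔ d X (f X s))) hs (by
        intro X Y hXY
        refine ⟨⟨(hC X Y hXY.1).1, hXY.2⟩, fun h5 => ?_⟩
        by_cases hd : d X (f X s)
        · exact hd (h5.mono (fun _ h => h) (fun q hq => ⟨hq.1, fun h6 => hq.2 (by tauto)⟩))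
        · refine (hC X Y hXY.1).2 ⟨f X s, trivial, ?_, not_not.1 hd⟩
          exact h5.mono (fun _ h => h) (fun q hq => ⟨hq.1, by tauto⟩))
      exact ⟨p, hp.mono (fun X Y h => h.1) (fun _ _ _ _ h => h)⟩

end Pool.Agent.H708Z.GS
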