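import Pool.Agent.H708Z.GSMain

/-!
Finitary types over a graph without long ladders.
-/

set_option autoImplicit false

namespace Pool.Agent.H708Z.GS

variable {V : Type*} (G : SimpleGraph V)

/-- No ladder of length `m`. -/
def NoLadder (m : ℕ) : Prop :=
  ¬ ∃ l : List (V × V), l.length = m ∧
    l.Pairwise (fun x y => G.Adj x.1 y.2 ∧ ¬ G.Adj y.1 x.2)

/-- `d` is realised on every set of at most `τ` vertices. -/
def IsTy (τ : ℕ) (d : V → Prop) : Prop :=
  ∀ B : Finset V, B.card ≤ τ → ∃ a, ∀ b ∈ B, (G.Adj a b ↔ d b)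

/-- Every vertex agreeing with `p` on a suitable small set lies in `q`. -/
def Frc (m : ℕ) (p q : V → Prop) : Prop :=
  ∃ B : Finset V, B.card ≤ m ∧ ∀ a, (∀ b ∈ B, (G.Adj a b ↔ p b)) → q a

variable {G}

lemma dich {m : ℕ} (hL : NoLadder G m) (p q : V → Prop) :
    Frc G m p q ∨ Frc G m q (fun a => ¬ p a) := by
  classical
  by_contra hcon
  rw [not_or] at hcon
  obtain ⟨h1, h2⟩ := hcon
  have key : ∀ n, n ≤ m → ∃ l : List (V × V), l.length = n ∧ (∀ x ∈ l, ¬ q x.1 ∧ p x.2) ∧
      l.Pairwise (fun x y => G.Adj x.1 y.2 ∧ ¬ G.Adj y.1 x.2) := by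
    intro n
    induction n with
    | zero => intro _; exact ⟨[], rfl, by simp, List.Pairwise.nil⟩
    | succ n ih =>
      intro hn
      obtain ⟨l, hl, hm, hp⟩ := ih (by omega)
      have ha : ∃ a, (∀ b ∈ (l.map Prod.snd).toFinset, (G.Adj a b ↔ p b)) ∧ ¬ q a := by
        by_contra h3
        refine h1 ⟨(l.map Prod.snd).toFinset, (List.toFinset_card_le _).trans (by simp; omega),
          fun a ha => ?_⟩
        by_contra h4
        exact h3 ⟨a, ha, h4⟩
      have hb : ∃ b, (∀ a ∈ (l.map Prod.fst).toFinset, (G.Adj b a ↔ q a)) ∧ p b := by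
        by_contra h3
        refine h2 ⟨(l.map Prod.fst).toFinset, (List.toFinset_card_le _).trans (by simp; omega),
          fun a ha h4 => h3 ⟨a, ha, h4⟩⟩
      obtain ⟨a, ha, ha'⟩ := ha
      obtain ⟨b, hb, hb'⟩ := hb
      refine ⟨(a, b) :: l, by simp [hl], ?_, List.Pairwise.cons ?_ hp⟩
      · intro x hx
        rcases List.mem_cons.1 hx with rfl | hx
        · exact ⟨ha', hb'⟩
        · exact hm x hx
      · intro x hx
        refine ⟨(ha x.2 (List.mem_toFinset.2 (List.mem_map_of_mem hx))).2 (hm x hx).2, fun h => ?_⟩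
        exact (hm x hx).1 ((hb x.1 (List.mem_toFinset.2 (List.mem_map_of_mem hx))).1 h.symm)
  obtain ⟨l, hl, -, hp⟩ := key m le_rfl
  exact hL ⟨l, hl, hp⟩

lemma frc_excl {m τ : ℕ} (hτ : m + m ≤ τ) {p q : V → Prop} (hp : IsTy G τ p)
    (h1 : Frc G m p q) (h2 : Frc G m p (fun a => ¬ q a)) : False := by
  classical
  obtain ⟨B, hB, h1⟩ := h1
  obtain ⟨B', hB', h2⟩ := h2
  obtain ⟨a, ha⟩ := hp (B ∪ B') (by
    have := Finset.card_union_le B B'
    omega)
  exact h2 a (fun b h => ha b (Finset.mem_union_right _ h))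
    (h1 a (fun b h => ha b (Finset.mem_union_left _ h)))

lemma frc_symm {m τ : ℕ} (hL : NoLadder G m) (hτ : m + m ≤ τ) {p q : V → Prop}
    (hp : IsTy G τ p) (h : Frc G m p q) : Frc G m q p :=
  (dich hL q p).resolve_right (fun h2 => frc_excl hτ hp h h2)

lemma frc_neg {m τ : ℕ} (hL : NoLadder G m) (hτ : m + m ≤ τ) {p q : V → Prop}
    (hq : IsTy G τ q) (h : ¬ Frc G m p q) : Frc G m p (fun a => ¬ q a) :=
  (dich hL q p).resolve_left (fun h2 => h (frc_symm hL hτ hq h2))

lemma frc_congr {m : ℕ} {p p' q : V → Prop} {B : Finset V} (hB : B.card ≤ m)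
    (h : ∀ a, (∀ b ∈ B, (G.Adj a b ↔ p b)) → q a) (h' : ∀ b ∈ B, (p' b ↔ p b)) :
    Frc G m p' q :=
  ⟨B, hB, fun a ha => h a (fun b hb => (ha b hb).trans (h' b hb))⟩

lemma frc_loc {m τ : ℕ} (hL : NoLadder G m) (hτ : m + m ≤ τ) {p q : V → Prop}
    (_hp : IsTy G τ p) (hq : IsTy G τ q) : ∃ B : Finset V, B.card ≤ m ∧
      ∀ p', IsTy G τ p' → (∀ b ∈ B, (p' b ↔ p b)) → (Frc G m p' q ↔ Frc G m p q) := by
  by_cases h : Frc G m p q
  · obtain ⟨B, hB, h1⟩ := h
    exact ⟨B, hB, fun p' _ h' => iff_of_true (frc_congr hB h1 h') ⟨B, hB, h1⟩⟩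
  · obtain ⟨B, hB, h1⟩ := frc_neg hL hτ hq h
    exact ⟨B, hB, fun p' hp' h' => iff_of_false
      (fun h2 => frc_excl hτ hp' h2 (frc_congr hB h1 h')) h⟩

lemma frc_irrefl {m τ k : ℕ} (hk : G.CliqueFree k) (hτ : m + k ≤ τ) {p : V → Prop}
    (hp : IsTy G τ p) : ¬ Frc G m p p := by
  classical
  rintro ⟨B, hB, h⟩
  have key : ∀ n, n ≤ k → ∃ s : Finset V, G.IsNClique n s ∧ ∀ a ∈ s, p a := by
    intro n
    induction n with
    | zero => intro _; exact ⟨∅, by simp, by simp⟩
    | succ n ih =>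
      intro hn
      obtain ⟨s, hs, hs'⟩ := ih (by omega)
      obtain ⟨a, ha⟩ := hp (B ∪ s) (by
        have := Finset.card_union_le B s
        have := hs.card_eq
        omega)
      refine ⟨insert a s, hs.insert (fun b hb => (ha b (Finset.mem_union_right _ hb)).2 (hs' b hb)),
        fun b hb => ?_⟩
      rcases Finset.mem_insert.1 hb with rfl | hb
      · exact h _ (fun b hb => ha b (Finset.mem_union_left _ hb))
      · exact hs' b hb
  obtain ⟨s, hs, -⟩ := key k le_rfl
  exact hk s hs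

lemma isTy_adj (τ : ℕ) (a : V) : IsTy G τ (G.Adj a) := fun _ _ => ⟨a, fun _ _ => Iff.rfl⟩

lemma frc_adj {m τ : ℕ} (hL : NoLadder G m) (hτ : m + m ≤ τ) (a : V) {q : V → Prop}
    (hq : IsTy G τ q) : Frc G m (G.Adj a) q ↔ q a := by
  constructor
  · rintro ⟨B, -, h⟩
    exact h a (fun _ _ => Iff.rfl)
  · intro h
    by_contra h2
    obtain ⟨B, -, h3⟩ := frc_neg hL hτ hq h2
    exact h3 a (fun _ _ => Iff.rfl) h

lemma lift_copy {m τ : ℕ} (hL : NoLadder G m) (hτ : m + m ≤ τ) {β : Type} [Fintype β]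
    (hτ' : Fintype.card β * (m + 1) ≤ τ) {T : SimpleGraph β} (X : β → V → Prop)
    (hX : ∀ a, IsTy G τ (X a)) (hinj : Function.Injective X)
    (hadj : ∀ a b, (Frc G m (X a) (X b) ↔ T.Adj a b)) : Nonempty (T ↪g G) := by
  classical
  have key : ∀ s : Finset β, ∃ Y : β → V → Prop, (∀ a, IsTy G τ (Y a)) ∧ Function.Injective Y ∧
      (∀ a b, a ≠ b → (Frc G m (Y a) (Y b) ↔ T.Adj a b)) ∧ ∀ a ∈ s, ∃ z, Y a = G.Adj z := by
    intro s
    induction s using Finset.induction_on with
    | empty => exact ⟨X, hX, hinj, fun a b _ => hadj a b, by simp⟩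
    | insert a s _ ih =>
      obtain ⟨Y, hY, hi, ha, hs⟩ := ih
      choose B hB hl using fun b => frc_loc hL hτ (hY a) (hY b)
      have hsep : ∀ b, ∃ C : Finset V, C.card ≤ 1 ∧ (b ≠ a → ∃ c ∈ C, ¬ (Y b c ↔ Y a c)) := by
        intro b
        by_cases hb : b = a
        · exact ⟨∅, by simp, fun h => (h hb).elim⟩
        · have : ∃ c, ¬ (Y b c ↔ Y a c) := by
            by_contra hcon
            push Not at hcon
            exact hb (hi (funext fun c => propext (hcon c)))
          obtain ⟨c, hc⟩ := this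
          exact ⟨{c}, by simp, fun _ => ⟨c, by simp, hc⟩⟩
      choose C hC hc using hsep
      obtain ⟨z, hz⟩ := hY a (Finset.univ.biUnion (fun b => B b ∪ C b)) (by
        refine Finset.card_biUnion_le.trans (le_trans (Finset.sum_le_card_nsmul _ _ (m + 1) ?_) ?_)
        · intro b _
          exact (Finset.card_union_le _ _).trans (Nat.add_le_add (hB b) (hC b))
        · simpa using hτ')
      have hzB : ∀ b, (Frc G m (G.Adj z) (Y b) ↔ Frc G m (Y a) (Y b)) := fun b =>
        hl b _ (isTy_adj τ z) (fun c h => hz c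
          (Finset.mem_biUnion.2 ⟨b, Finset.mem_univ _, Finset.mem_union_left _ h⟩))
      have hzC : ∀ b, b ≠ a → Y b ≠ G.Adj z := by
        intro b hb he
        obtain ⟨c, hc1, hc2⟩ := hc b hb
        refine hc2 ?_
        rw [he]
        exact hz c (Finset.mem_biUnion.2 ⟨b, Finset.mem_univ _, Finset.mem_union_right _ hc1⟩)
      refine ⟨Function.update Y a (G.Adj z), fun b => ?_, fun b c h => ?_, fun b c hbc => ?_,
        fun b hb => ?_⟩
      · by_cases hb : b = a
        · subst hb; rw [Function.update_self]; exact isTy_adj τ z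
        · rw [Function.update_of_ne hb]; exact hY b
      · by_cases hb : b = a <;> by_cases hc' : c = a
        · exact hb.trans hc'.symm
        · subst hb
          rw [Function.update_self, Function.update_of_ne hc'] at h
          exact (hzC c hc' h.symm).elim
        · subst hc'
          rw [Function.update_self, Function.update_of_ne hb] at h
          exact (hzC b hb h).elim
        · rw [Function.update_of_ne hb, Function.update_of_ne hc'] at h
          exact hi h
      · by_cases hb : b = a <;> by_cases hc' : c = a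
        · exact (hbc (hb.trans hc'.symm)).elim
        · subst hb
          rw [Function.update_self, Function.update_of_ne hc', hzB]
          exact ha _ _ hbc
        · subst hc'
          rw [Function.update_self, Function.update_of_ne hb, T.adj_comm, ← ha _ _ hbc.symm,
            ← hzB]
          exact ⟨frc_symm hL hτ (hY b), frc_symm hL hτ (isTy_adj τ z)⟩
        · rw [Function.update_of_ne hb, Function.update_of_ne hc']
          exact ha _ _ hbc
      · by_cases hb' : b = a
        · subst hb'; exact ⟨z, by rw [Function.update_self]⟩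
        · rw [Function.update_of_ne hb']
          exact hs b ((Finset.mem_insert.1 hb).resolve_left hb')
  obtain ⟨Y, -, hi, ha, hs⟩ := key Finset.univ
  choose z hz using fun a => hs a (Finset.mem_univ a)
  refine ⟨⟨⟨z, fun a b h => hi (by rw [hz, hz, h])⟩, fun {a b} => ?_⟩⟩
  by_cases hab : a = b
  · subst hab; simp
  · rw [← ha a b hab, hz, hz, frc_adj hL hτ _ (isTy_adj τ _)]
    exact G.adj_comm _ _

theorem colorable_of_noLadder {m k : ℕ} (hL : NoLadder G m) (hk : G.CliqueFree k)
    {β : Type} [Fintype β] {T : SimpleGraph β} (hT : T.IsTree) (hfree : ¬ Nonempty (T ↪g G)) :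
    ∃ c, G.Colorable c := by
  classical
  rcases isEmpty_or_nonempty V with hV | hV
  · exact ⟨0, SimpleGraph.Colorable.of_isEmpty 0⟩
  let τ := m + m + k + Fintype.card β * (m + 1)
  have hτ : m + m ≤ τ := by omega
  let Ω := {d : V → Prop // IsTy G τ d}
  obtain ⟨H, hH⟩ := Tr.ladder (fun (p : Ω) b => p.1 b) m
  obtain ⟨α, hα, κ, hκ⟩ := abstract_col (Ω := Ω) (P := V) (mem := fun p b => p.1 b)
    (Adj := fun p q => Frc G m p.1 q.1) (m := m) (τ := τ) (H := H)
    (fun p q h => frc_symm hL hτ p.2 h) (fun p => frc_irrefl hk (by omega) p.2)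
    (fun p q => by
      obtain ⟨B, hB, h⟩ := frc_loc hL hτ p.2 q.2
      exact ⟨B, hB, fun p' h' => h p'.1 p'.2 h'⟩)
    (fun p q h => Subtype.ext (funext fun b => propext (h b)))
    (fun d hd => ⟨⟨d, fun B hB => by
      obtain ⟨p, hp⟩ := hd B hB
      obtain ⟨a, ha⟩ := p.2 B hB
      exact ⟨a, fun b hb => (ha b hb).trans (hp b hb)⟩⟩, fun _ => Iff.rfl⟩)
    (fun h => by
      obtain ⟨l, hl, -, hp⟩ := hH _ _ h
      choose a ha using fun p : Ω => p.2 (l.map Prod.snd).toFinset
        ((List.toFinset_card_le _).trans (by simp; omega))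
      refine hL ⟨l.map (fun x => (a x.1, x.2)), by simpa using hl, ?_⟩
      rw [List.pairwise_map]
      refine hp.imp_of_mem (fun {x y} hx hy h => ⟨?_, fun h' => h.2 ?_⟩)
      · exact (ha x.1 y.2 (List.mem_toFinset.2 (List.mem_map_of_mem hy))).2 h.1
      · exact (ha y.1 x.2 (List.mem_toFinset.2 (List.mem_map_of_mem hx))).1 h')
    hT (fun ⟨X, hX, h⟩ => hfree (lift_copy hL hτ (by omega) (fun a => (X a).1) (fun a => (X a).2)
      (fun a b h => hX (Subtype.ext h)) h))
  have := Fintype.ofFinite α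
  refine ⟨Fintype.card α, SimpleGraph.Coloring.colorable (SimpleGraph.Coloring.mk
    (fun a => κ ⟨G.Adj a, isTy_adj τ a⟩) (fun {a b} h => hκ _ _ ?_))⟩
  exact (frc_adj hL hτ a (isTy_adj τ b)).2 h.symm

end Pool.Agent.H708Z.GS
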