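import Pool.Agent.H708Z.GSTypes

/-!
Uniform bound: forbidding an induced forest, an induced half graph and a clique bounds the
chromatic number.
-/

set_option autoImplicit false

universe u

namespace Pool.Agent.H708Z.GS

/-- The half graph of order `n`: vertices `a i` and `b j`, with `a i` adjacent to `b j` exactly
when `i ≤ j`, and no other edges. -/
def halfGraph (n : ℕ) : SimpleGraph (Fin n ⊕ Fin n) :=
  SimpleGraph.fromRel (fun x y => ∃ i j : Fin n, x = Sum.inl i ∧ y = Sum.inr j ∧ i ≤ j)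

lemma halfGraph_lr {n : ℕ} (i j : Fin n) :
    (halfGraph n).Adj (Sum.inl i) (Sum.inr j) ↔ i ≤ j := by
  simp [halfGraph, SimpleGraph.fromRel_adj]

lemma halfGraph_ll {n : ℕ} (i j : Fin n) : ¬ (halfGraph n).Adj (Sum.inl i) (Sum.inl j) := by
  simp [halfGraph, SimpleGraph.fromRel_adj]

lemma halfGraph_rr {n : ℕ} (i j : Fin n) : ¬ (halfGraph n).Adj (Sum.inr i) (Sum.inr j) := by
  simp [halfGraph, SimpleGraph.fromRel_adj]

lemma halfGraph_connected (n : ℕ) : (halfGraph (n + 1)).Connected := by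
  have h : ∀ x, (halfGraph (n + 1)).Reachable (Sum.inl 0) x := by
    intro x
    rcases x with i | j
    · exact ((halfGraph_lr 0 (Fin.last n)).2 (Fin.zero_le _)).reachable.trans
        ((halfGraph_lr i (Fin.last n)).2 (Fin.le_last _)).reachable.symm
    · exact ((halfGraph_lr 0 j).2 (Fin.zero_le _)).reachable
  exact ⟨fun x y => (h x).symm.trans (h y)⟩

lemma list_ramsey {β : Type*} (R : β → β → Prop) : ∀ k n : ℕ, ∃ N : ℕ, ∀ l : List β,
    N ≤ l.length → (∃ l' : List β, l'.Sublist l ∧ l'.length = k ∧ l'.Pairwise R) ∨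
      (∃ l' : List β, l'.Sublist l ∧ l'.length = n ∧ l'.Pairwise (fun x y => ¬ R x y)) := by
  classical
  intro k
  induction k with
  | zero => intro n; exact ⟨0, fun l _ => Or.inl ⟨[], by simp, rfl, List.Pairwise.nil⟩⟩
  | succ k ihk =>
    intro n
    induction n with
    | zero => exact ⟨0, fun l _ => Or.inr ⟨[], by simp, rfl, List.Pairwise.nil⟩⟩
    | succ n ihn =>
      obtain ⟨N₁, h₁⟩ := ihk (n + 1)
      obtain ⟨N₂, h₂⟩ := ihn
      refine ⟨N₁ + N₂ + 1, fun l hl => ?_⟩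
      cases l with
      | nil => simp at hl
      | cons x l =>
        have e := l.length_eq_length_filter_add (fun y => decide (R x y))
        simp only [List.length_cons] at hl
        by_cases hc : N₁ ≤ (l.filter (fun y => decide (R x y))).length
        · rcases h₁ _ hc with ⟨l', hs, hl', hp⟩ | ⟨l', hs, hl', hp⟩
          · refine Or.inl ⟨x :: l', (hs.trans List.filter_sublist).cons_cons x, by simp [hl'],
              List.Pairwise.cons (fun y hy => ?_) hp⟩
            simpa using (List.mem_filter.1 (hs.subset hy)).2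
          · exact Or.inr ⟨l', (hs.trans List.filter_sublist).cons x, hl', hp⟩
        · rcases h₂ (l.filter (fun y => !decide (R x y))) (by omega) with
            ⟨l', hs, hl', hp⟩ | ⟨l', hs, hl', hp⟩
          · exact Or.inl ⟨l', (hs.trans List.filter_sublist).cons x, hl', hp⟩
          · refine Or.inr ⟨x :: l', (hs.trans List.filter_sublist).cons_cons x, by simp [hl'],
              List.Pairwise.cons (fun y hy => ?_) hp⟩
            simpa using (List.mem_filter.1 (hs.subset hy)).2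

lemma no_clique_list {V β : Type*} {G : SimpleGraph V} {k : ℕ} (hk : G.CliqueFree k) (f : β → V)
    (l : List β) (hl : l.length = k) : ¬ l.Pairwise (fun x y => G.Adj (f x) (f y)) := by
  classical
  intro hp
  have hp' : (l.map f).Pairwise G.Adj := List.pairwise_map.2 hp
  have hnd : (l.map f).Nodup := hp'.imp (fun h => h.ne)
  refine hk (l.map f).toFinset ⟨?_, by rw [List.toFinset_card_of_nodup hnd]; simpa using hl⟩
  intro a ha b hb hab
  have : Std.Symm G.Adj := G.symm
  exact hp'.forall (List.mem_toFinset.1 ha) (List.mem_toFinset.1 hb) hab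

lemma noLadder_of_half {V : Type*} {G : SimpleGraph V} {k n : ℕ} (hk : G.CliqueFree k)
    (hh : ¬ Nonempty (halfGraph n ↪g G)) : ∃ m, NoLadder G m := by
  obtain ⟨N₂, h₂⟩ := list_ramsey (fun x y : V × V => G.Adj x.2 y.2) k (n + n)
  obtain ⟨N₁, h₁⟩ := list_ramsey (fun x y : V × V => G.Adj x.1 y.1) k N₂
  refine ⟨N₁, fun ⟨l, hl, hp⟩ => ?_⟩
  rcases h₁ l hl.ge with ⟨l₁, -, hl₁, hp₁⟩ | ⟨l₁, hs₁, hl₁, hp₁⟩
  · exact no_clique_list hk Prod.fst l₁ hl₁ hp₁
  rcases h₂ l₁ hl₁.ge with ⟨l₂, -, hl₂, hp₂⟩ | ⟨l₂, hs₂, hl₂, hp₂⟩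
  · exact no_clique_list hk Prod.snd l₂ hl₂ hp₂
  have q₀ := List.pairwise_iff_getElem.1 (hp.sublist (hs₂.trans hs₁))
  have q₁ := List.pairwise_iff_getElem.1 (hp₁.sublist hs₂)
  have q₂ := List.pairwise_iff_getElem.1 hp₂
  let A : Fin n → V := fun i => (l₂[2 * (i : ℕ)]'(by omega)).1
  let B : Fin n → V := fun j => (l₂[2 * (j : ℕ) + 1]'(by omega)).2
  have hAB : ∀ i j, G.Adj (A i) (B j) ↔ i ≤ j := by
    intro i j
    by_cases h : i ≤ j
    · exact iff_of_true (q₀ _ _ _ _ (by have : (i : ℕ) ≤ j := h; omega)).1 h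
    · exact iff_of_false (q₀ _ _ _ _ (by have : ¬ (i : ℕ) ≤ j := h; omega)).2 h
  have hAA : ∀ i j, ¬ G.Adj (A i) (A j) := by
    intro i j h
    rcases lt_trichotomy (i : ℕ) j with h1 | h1 | h1
    · exact q₁ _ _ _ _ (by omega) h
    · exact h.ne (by rw [Fin.ext h1])
    · exact q₁ _ _ _ _ (by omega) h.symm
  have hBB : ∀ i j, ¬ G.Adj (B i) (B j) := by
    intro i j h
    rcases lt_trichotomy (i : ℕ) j with h1 | h1 | h1
    · exact q₂ _ _ _ _ (by omega) h
    · exact h.ne (by rw [Fin.ext h1])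
    · exact q₂ _ _ _ _ (by omega) h.symm
  have hne : ∀ i j, A i ≠ B j := fun i j h => hAA j i (h ▸ (hAB j j).2 le_rfl)
  refine hh ⟨⟨⟨Sum.elim A B, ?_⟩, ?_⟩⟩
  · rintro (i | i) (j | j) h
    · have h' : A i = A j := h
      exact congrArg _ (le_antisymm ((hAB i j).1 (h' ▸ (hAB j j).2 le_rfl))
        ((hAB j i).1 (h' ▸ (hAB i i).2 le_rfl)))
    · exact (hne i j h).elim
    · exact (hne j i h.symm).elim
    · have h' : B i = B j := h
      exact congrArg _ (le_antisymm ((hAB i j).1 (h' ▸ (hAB i i).2 le_rfl))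
        ((hAB j i).1 (h' ▸ (hAB j j).2 le_rfl)))
  · rintro (i | i) (j | j)
    · exact iff_of_false (hAA i j) (halfGraph_ll i j)
    · exact (hAB i j).trans (halfGraph_lr i j).symm
    · rw [SimpleGraph.adj_comm, (halfGraph n).adj_comm]
      exact (hAB j i).trans (halfGraph_lr j i).symm
    · exact iff_of_false (hBB i j) (halfGraph_rr i j)

/-- Disjoint union of a family of graphs. -/
def sigmaG {ι : Type} {W : ι → Type u} (G : ∀ i, SimpleGraph (W i)) : SimpleGraph (Σ i, W i) where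
  Adj x y := ∃ i u v, x = ⟨i, u⟩ ∧ y = ⟨i, v⟩ ∧ (G i).Adj u v
  symm := ⟨fun _ _ ⟨i, u, v, h1, h2, h⟩ => ⟨i, v, u, h2, h1, h.symm⟩⟩
  loopless := ⟨fun _ ⟨i, u, v, h1, h2, h⟩ => h.ne (by
    have := h1.symm.trans h2
    simpa using this)⟩

lemma sigmaG_adj {ι : Type} {W : ι → Type u} (G : ∀ i, SimpleGraph (W i)) (i : ι) (u v : W i) :
    (sigmaG G).Adj ⟨i, u⟩ ⟨i, v⟩ ↔ (G i).Adj u v := by
  constructor
  · rintro ⟨j, u', v', h1, h2, h⟩
    cases h1
    cases h2
    exact h
  · exact fun h => ⟨i, u, v, rfl, rfl, h⟩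

lemma emb_of_sigma {ι : Type} {W : ι → Type u} (G : ∀ i, SimpleGraph (W i)) {β : Type*}
    {H : SimpleGraph β} (hH : H.Connected) (f : H ↪g sigmaG G) : ∃ i, Nonempty (H ↪g G i) := by
  obtain ⟨a₀⟩ := hH.nonempty
  have h1 : ∀ a b, H.Reachable a b → (f a).1 = (f b).1 := by
    rintro a b ⟨p⟩
    induction p with
    | nil => rfl
    | cons h _ ih =>
      obtain ⟨j, u, v, h1, h2, -⟩ := f.map_adj_iff.2 h
      rw [← ih, h1, h2]
  have h2 : ∀ a, ∃ u, f a = ⟨(f a₀).1, u⟩ := by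
    intro a
    have := h1 a₀ a (hH a₀ a)
    rw [this]
    exact ⟨(f a).2, rfl⟩
  choose g hg using h2
  refine ⟨(f a₀).1, ⟨⟨⟨g, fun a b h => f.injective (by rw [hg a, hg b, h])⟩, fun {a b} => ?_⟩⟩⟩
  rw [← f.map_adj_iff, hg a, hg b, sigmaG_adj]
  rfl

theorem uniform_tree {β : Type} [Fintype β] {T : SimpleGraph β} (hT : T.IsTree) (n k : ℕ) :
    ∃ c : ℕ, ∀ (V : Type u) (G : SimpleGraph V), ¬ Nonempty (T ↪g G) →
      ¬ Nonempty (halfGraph n ↪g G) → G.CliqueFree k → G.Colorable c := by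
  by_contra hcon
  push Not at hcon
  choose W G h1 h2 h3 h4 using hcon
  cases k with
  | zero => exact SimpleGraph.not_cliqueFree_zero (h3 0)
  | succ k =>
  cases n with
  | zero => exact (h2 0).elim ⟨⟨fun x => x.elim Fin.elim0 Fin.elim0,
      fun x => x.elim (fun i => i.elim0) (fun i => i.elim0)⟩,
      fun {x} => x.elim (fun i => i.elim0) (fun i => i.elim0)⟩
  | succ n =>
  have hk : (sigmaG G).CliqueFree (k + 1) := by
    by_contra h
    obtain ⟨i, ⟨f⟩⟩ := emb_of_sigma G SimpleGraph.connected_top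
      (SimpleGraph.topEmbeddingOfNotCliqueFree h)
    exact f.isContained.not_cliqueFree (h3 i)
  obtain ⟨m, hm⟩ := noLadder_of_half (n := n + 1) hk (fun ⟨f⟩ => by
    obtain ⟨i, ⟨g⟩⟩ := emb_of_sigma G (halfGraph_connected n) f
    exact (h2 i).elim g)
  obtain ⟨c, hc⟩ := colorable_of_noLadder hm hk hT (fun ⟨f⟩ => by
    obtain ⟨i, ⟨g⟩⟩ := emb_of_sigma G hT.connected f
    exact (h1 i).elim g)
  exact h4 c (hc.of_hom ⟨fun u => ⟨c, u⟩, fun {u v} h => (sigmaG_adj G c u v).2 h⟩)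

lemma exists_tree_of_forest {β : Type} {F : SimpleGraph β} (hF : F.IsAcyclic) :
    ∃ T : SimpleGraph (Option β), T.IsTree ∧ Nonempty (F ↪g T) := by
  let H : SimpleGraph (Option β) := F.map Function.Embedding.some
  have hH : ∀ x y, H.Adj x y → x ≠ none := by
    rintro x y h rfl
    obtain ⟨a, b, -, h1, -⟩ := (SimpleGraph.map_adj _ _ _ _).1 h
    simp at h1
  have hsupp : ∀ x y (p : H.Walk x y), x ≠ none → ∀ z ∈ p.support, z ∈ {x : Option β | x ≠ none} := by
    intro x y p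
    induction p with
    | nil => intro hx z hz; simp at hz; rw [hz]; exact hx
    | cons h p ih =>
      intro hx z hz
      rw [SimpleGraph.Walk.support_cons, List.mem_cons] at hz
      rcases hz with rfl | hz
      · exact hx
      · exact ih (hH _ _ h.symm) z hz
  have hac : H.IsAcyclic := by
    have h1 : (H.induce {x : Option β | x ≠ none}).IsAcyclic := by
      refine SimpleGraph.IsAcyclic.comap
        ⟨fun x => x.1.get (Option.ne_none_iff_isSome.1 x.2), ?_⟩ ?_ hF
      · rintro ⟨x, hx⟩ ⟨y, hy⟩ h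
        obtain ⟨a, b, hab, h1, h2⟩ := (SimpleGraph.map_adj _ _ _ _).1 h
        subst h1 h2
        exact hab
      · rintro ⟨x, hx⟩ ⟨y, hy⟩ h
        obtain ⟨a, rfl⟩ := Option.ne_none_iff_exists'.1 hx
        obtain ⟨b, rfl⟩ := Option.ne_none_iff_exists'.1 hy
        have : a = b := h
        subst this
        rfl
    intro v c hc
    have hv : v ≠ none := hH _ _ (c.adj_snd hc.not_nil)
    refine h1 (c.induce _ (hsupp _ _ c hv)) ?_
    refine SimpleGraph.Walk.IsCycle.of_map (f := (SimpleGraph.Embedding.induce _).toHom) ?_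
    rw [SimpleGraph.Walk.map_induce]
    exact hc
  let G₀ : SimpleGraph (Option β) := H ⊔ SimpleGraph.fromRel (fun x _ => x = none)
  have hconn : G₀.Connected := by
    have h : ∀ x, G₀.Reachable none x := by
      intro x
      by_cases hx : x = none
      · rw [hx]
      · exact SimpleGraph.Adj.reachable (Or.inr ⟨fun h => hx h.symm, Or.inl rfl⟩)
    exact ⟨fun x y => (h x).symm.trans (h y)⟩
  obtain ⟨T, h1, h2, hT⟩ := hconn.exists_isTree_le_of_le_of_isAcyclic le_sup_left hac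
  refine ⟨T, hT, ⟨⟨Function.Embedding.some, fun {a b} => ⟨fun h => ?_, fun h => h1 ?_⟩⟩⟩⟩
  · rcases h2 h with h | h
    · exact (SimpleGraph.map_adj_apply).1 h
    · simp [SimpleGraph.fromRel_adj] at h
  · exact (SimpleGraph.map_adj_apply).2 h

theorem uniform_forest {β : Type} [Fintype β] {F : SimpleGraph β} (hF : F.IsAcyclic) (n k : ℕ) :
    ∃ c : ℕ, ∀ (V : Type u) (G : SimpleGraph V), ¬ Nonempty (F ↪g G) →
      ¬ Nonempty (halfGraph n ↪g G) → G.CliqueFree k → G.Colorable c := by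
  obtain ⟨T, hT, ⟨f⟩⟩ := exists_tree_of_forest hF
  obtain ⟨c, hc⟩ := uniform_tree.{u} hT n k
  exact ⟨c, fun V G h1 h2 h3 => hc V G (fun ⟨g⟩ => h1 ⟨g.comp f⟩) h2 h3⟩

end Pool.Agent.H708Z.GS
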