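import Mathlib
import Pool.Agent.Helper82.BorsukUlam

/-!
Groups of homeomorphisms which contain a circle group none of whose conjugates has only small
orbits are unions of a meager and a Haar null set.
-/

set_option autoImplicit false

namespace Pool.Agent.H708Z.HaarBall

open MeasureTheory Set Filter Topology Metric
open scoped ENNReal

section Abstract

variable {X : Type} [MetricSpace X] [CompactSpace X]

/-- The conjugate of `ρ z` by `g` moves points by at most `η`. -/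
def Close (ρ : Circle → C(X, X)) (g : C(X, X)) (z : Circle) (η : ℝ) : Prop :=
  ∀ x y, g y = ρ z (g x) → dist x y ≤ η

omit [CompactSpace X] in
theorem close_pow {ρ : Circle → C(X, X)} (h1 : ∀ x, ρ 1 x = x)
    (hm : ∀ z w x, ρ (z * w) x = ρ z (ρ w x)) {g : C(X, X)} (hg : Function.Bijective g)
    {z : Circle} {η : ℝ} (h : Close ρ g z η) (N : ℕ) : Close ρ g (z ^ N) (N * η) := by
  induction N with
  | zero =>
    intro x y hxy
    rw [pow_zero, h1] at hxy
    rw [hg.1 hxy]
    simp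
  | succ N ih =>
    intro x y hxy
    obtain ⟨u, hu⟩ := hg.2 (ρ z (g x))
    have a := h x u hu
    have b := ih u y (by rw [hxy, pow_succ, hm, hu])
    have c := dist_triangle x u y
    push_cast
    linarith

/-- A closed set containing the two-sided translate of a ball. -/
def V (g h d : C(X, X)) (δ : ℝ) : Set C(X, X) := {f | ∀ u, f u ∈ g '' closedBall (d (h u)) δ}

theorem isClosed_V (g h d : C(X, X)) (δ : ℝ) : IsClosed (V g h d δ) := by
  have : V g h d δ = ⋂ u, (fun f : C(X, X) => f u) ⁻¹' (g '' closedBall (d (h u)) δ) := by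
    ext f; simp [V]
  rw [this]
  refine isClosed_iInter fun u => IsClosed.preimage (continuous_eval_const u) ?_
  exact (isClosed_closedBall.isCompact.image g.continuous).isClosed

omit [CompactSpace X] in
theorem close_of_V {ρ : Circle → C(X, X)} (h1 : ∀ x, ρ 1 x = x)
    (hm : ∀ z w x, ρ (z * w) x = ρ z (ρ w x)) {g h d : C(X, X)} (hg : Function.Bijective g)
    {δ : ℝ} {z w : Circle} (hz : ρ z ∈ V g h d δ) (hw : ρ (w * z) ∈ V g h d δ) :
    Close ρ g w (2 * δ) := by
  intro x y hxy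
  have e : ρ z (ρ z⁻¹ (g x)) = g x := by rw [← hm, mul_inv_cancel, h1]
  obtain ⟨a, ha, ha'⟩ := hz (ρ z⁻¹ (g x))
  obtain ⟨b, hb, hb'⟩ := hw (ρ z⁻¹ (g x))
  rw [e] at ha'
  rw [hm, e, ← hxy] at hb'
  rw [← hg.1 ha', ← hg.1 hb']
  rw [mem_closedBall] at ha hb
  have := dist_triangle_right a b (d (h (ρ z⁻¹ (g x))))
  linarith

theorem small_V [MeasurableSpace Circle] [BorelSpace Circle] (ν : Measure Circle)
    [IsProbabilityMeasure ν] [ν.IsMulLeftInvariant] {ρ : Circle → C(X, X)} (hρ : Continuous ρ)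
    (h1 : ∀ x, ρ 1 x = x) (hm : ∀ z w x, ρ (z * w) x = ρ z (ρ w x)) {ε₀ : ℝ} (hε₀ : 0 < ε₀)
    (hbig : ∀ g : C(X, X), ∃ z x y, g y = ρ z (g x) ∧ ε₀ ≤ dist x y) {ε : ℝ≥0∞} (hε : 0 < ε) :
    ∃ δ : ℝ, 0 < δ ∧ ∀ g h d : C(X, X), Function.Bijective g → ν (ρ ⁻¹' V g h d δ) ≤ ε := by
  obtain ⟨k, hk⟩ := ENNReal.exists_inv_nat_lt hε.ne'
  have hf : (0 : ℝ) < k.factorial := by exact_mod_cast k.factorial_pos
  refine ⟨ε₀ / (4 * k.factorial), by positivity, fun g h d hg => ?_⟩
  by_contra hcon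
  push Not at hcon
  set δ := ε₀ / (4 * k.factorial) with hδ
  have hS : MeasurableSet (ρ ⁻¹' V g h d δ) := ((isClosed_V g h d δ).preimage hρ).measurableSet
  obtain ⟨z, x, y, hxy, hd⟩ := hbig g
  obtain ⟨θ, rfl⟩ := Circle.exp_surjective z
  set a := Circle.exp (θ / k.factorial) with ha
  have hak : a ^ k.factorial = Circle.exp θ := by
    rw [ha, ← Circle.exp_natCast_mul]
    congr 1
    field_simp
  have hk0 : k ≠ 0 := by
    rintro rfl
    simp at hk
  have key : ∀ i j : ℕ, i < j → j < k + 1 → ∀ u : Circle, ρ (a ^ i * u) ∈ V g h d δ →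
      ρ (a ^ j * u) ∈ V g h d δ → False := by
    intro i j hij hj u hi hj'
    have e : a ^ j * u = a ^ (j - i) * (a ^ i * u) := by
      rw [← mul_assoc, ← pow_add, Nat.sub_add_cancel hij.le]
    rw [e] at hj'
    have c1 := close_of_V h1 hm hg hi hj'
    obtain ⟨N, hN⟩ := Nat.dvd_factorial (m := j - i) (n := k) (by omega) (by omega)
    have c2 := close_pow h1 hm hg c1 N
    rw [← pow_mul, ← hN, hak] at c2
    have c3 := c2 x y hxy
    have hNle : (N : ℝ) ≤ k.factorial := by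
      have : N ≤ k.factorial := by
        rw [hN]
        exact Nat.le_mul_of_pos_left _ (by omega)
      exact_mod_cast this
    have hδ0 : 0 < δ := by positivity
    have : (k.factorial : ℝ) * (2 * δ) = ε₀ / 2 := by
      rw [hδ]; field_simp; norm_num
    nlinarith
  have hlt : ν univ < ∑ i ∈ Finset.range (k + 1),
      ν ((fun u => a ^ i * u) ⁻¹' (ρ ⁻¹' V g h d δ)) := by
    simp only [measure_preimage_mul, Finset.sum_const, Finset.card_range, measure_univ,
      nsmul_eq_mul]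
    have h2 : ((k : ℝ≥0∞))⁻¹ < ν (ρ ⁻¹' V g h d δ) := hk.trans hcon
    have hk1 : (k : ℝ≥0∞) ≠ 0 := by exact_mod_cast hk0
    calc (1 : ℝ≥0∞) = k * (k : ℝ≥0∞)⁻¹ := (ENNReal.mul_inv_cancel hk1 (by simp)).symm
      _ < k * ν (ρ ⁻¹' V g h d δ) := ENNReal.mul_lt_mul_right hk1 (by simp) h2
      _ ≤ _ := by
        gcongr
        exact Nat.le_succ k
  obtain ⟨i, hi, j, hj, hij, u, hu1, hu2⟩ := exists_nonempty_inter_of_measure_univ_lt_sum_measure ν
    (fun i _ => ((measurable_const_mul _) hS).nullMeasurableSet) hlt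
  rw [Finset.mem_range] at hi hj
  rcases lt_or_gt_of_ne hij with h' | h'
  · exact key i j h' hj u hu1 hu2
  · exact key j i h' hi u hu2 hu1

theorem abstract {ρ : Circle → C(X, X)} (hρ : Continuous ρ)
    (h1 : ∀ x, ρ 1 x = x) (hm : ∀ z w x, ρ (z * w) x = ρ z (ρ w x)) {ε₀ : ℝ} (hε₀ : 0 < ε₀)
    (hbig : ∀ g : C(X, X), ∃ z x y, g y = ρ z (g x) ∧ ε₀ ≤ dist x y)
    (G : Set C(X, X)) (hG : ∀ f ∈ G, Function.Bijective f) (hρG : ∀ z, ρ z ∈ G)
    [MeasurableSpace G] [BorelSpace G] :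
    ∃ B : Set G, IsMeagre Bᶜ ∧ MeasurableSet B ∧ ∃ μ : Measure G, IsProbabilityMeasure μ ∧
      ∀ g h : G, μ {x : G | ∃ b ∈ B,
        (x : C(X, X)) = (g : C(X, X)).comp ((b : C(X, X)).comp (h : C(X, X)))} = 0 := by
  borelize Circle
  let ν : Measure Circle := Measure.haarMeasure ⊤
  haveI : IsProbabilityMeasure ν := ⟨by
    have := Measure.haarMeasure_self (G := Circle) (K₀ := ⊤)
    simpa using this⟩
  let ρ' : Circle → G := fun z => ⟨ρ z, hρG z⟩
  have hρ' : Continuous ρ' := hρ.subtype_mk _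
  haveI : Nonempty G := ⟨ρ' 1⟩
  let d : ℕ → G := TopologicalSpace.denseSeq G
  have hd : DenseRange d := TopologicalSpace.denseRange_denseSeq G
  have hex : ∀ m : ℕ, ∃ δ : ℕ → ℝ, (∀ i, 0 < δ i) ∧ ∀ g h : C(X, X), Function.Bijective g →
      ∑' i, ν (ρ ⁻¹' V g h (d i) (δ i)) ≤ ((m : ℝ≥0∞) + 1)⁻¹ := by
    intro m
    obtain ⟨e, he, hs⟩ := ENNReal.exists_pos_sum_of_countable'
      (ε := ((m : ℝ≥0∞) + 1)⁻¹) (by simp) ℕ
    choose δ hδ hδ' using fun i => small_V ν hρ h1 hm hε₀ hbig (he i)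
    exact ⟨δ, hδ, fun g h hg => (ENNReal.tsum_le_tsum fun i => hδ' i g h _ hg).trans hs.le⟩
  choose δ hδ hδ' using hex
  let U : ℕ → Set G := fun m => ⋃ i, ball (d i) (δ m i)
  have hUo : ∀ m, IsOpen (U m) := fun m => isOpen_iUnion fun i => isOpen_ball
  have hUd : ∀ m, Dense (U m) := fun m => hd.mono (by
    rintro _ ⟨i, rfl⟩
    exact mem_iUnion.mpr ⟨i, mem_ball_self (hδ m i)⟩)
  refine ⟨⋂ m, U m, ?_, MeasurableSet.iInter fun m => (hUo m).measurableSet, ν.map ρ',
    Measure.isProbabilityMeasure_map hρ'.measurable.aemeasurable, fun g h => ?_⟩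
  · rw [IsMeagre, compl_compl]
    exact countable_iInter_mem.mpr fun m => residual_of_dense_open (hUo m) (hUd m)
  · have hle : ∀ m : ℕ, (ν.map ρ') {x : G | ∃ b ∈ ⋂ m, U m,
        (x : C(X, X)) = (g : C(X, X)).comp ((b : C(X, X)).comp (h : C(X, X)))} ≤
        ((m : ℝ≥0∞) + 1)⁻¹ := by
      intro m
      refine le_trans (measure_mono (t := ⋃ i, Subtype.val ⁻¹' V g h (d i) (δ m i)) ?_)
        ((measure_iUnion_le _).trans (le_trans (le_of_eq ?_) (hδ' m g h (hG _ g.2))))
      · rintro x ⟨b, hb, hx⟩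
        obtain ⟨i, hi⟩ := mem_iUnion.mp (mem_iInter.mp hb m)
        refine mem_iUnion.mpr ⟨i, fun u => ⟨(b : C(X, X)) ((h : C(X, X)) u), ?_, ?_⟩⟩
        · rw [mem_closedBall]
          exact (ContinuousMap.dist_apply_le_dist _).trans (mem_ball.mp hi).le
        · rw [hx]; rfl
      · refine tsum_congr fun i => ?_
        rw [Measure.map_apply hρ'.measurable
          ((isClosed_V _ _ _ _).preimage continuous_subtype_val).measurableSet]
        rfl
    refine le_antisymm ?_ (zero_le)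
    refine ge_of_tendsto' (f := fun m : ℕ => ((m : ℝ≥0∞) + 1)⁻¹) (x := atTop) ?_ hle
    have := ENNReal.tendsto_inv_nat_nhds_zero.comp (tendsto_add_atTop_nat 1)
    refine this.congr fun m => ?_
    simp

end Abstract

/-! ### Rotations of the ball -/

/-- Rotation in the plane of the first two coordinates. -/
noncomputable def rot {m : ℕ} (z : ℂ) (x : EuclideanSpace ℝ (Fin (m + 2))) :
    EuclideanSpace ℝ (Fin (m + 2)) :=
  WithLp.toLp 2 (Fin.cons (z.re * x 0 - z.im * x 1)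
    (Fin.cons (z.im * x 0 + z.re * x 1) fun j : Fin m => x j.succ.succ))

theorem rot_zero {m : ℕ} (z : ℂ) (x : EuclideanSpace ℝ (Fin (m + 2))) :
    rot z x 0 = z.re * x 0 - z.im * x 1 := rfl

theorem rot_one {m : ℕ} (z : ℂ) (x : EuclideanSpace ℝ (Fin (m + 2))) :
    rot z x 1 = z.im * x 0 + z.re * x 1 := rfl

theorem rot_succ {m : ℕ} (z : ℂ) (x : EuclideanSpace ℝ (Fin (m + 2))) (j : Fin m) :
    rot z x j.succ.succ = x j.succ.succ := rfl

theorem ext2 {m : ℕ} {x y : EuclideanSpace ℝ (Fin (m + 2))} (h0 : x 0 = y 0) (h1 : x 1 = y 1)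
    (h2 : ∀ j : Fin m, x j.succ.succ = y j.succ.succ) : x = y := by
  ext i
  refine Fin.cases h0 (fun i => ?_) i
  exact Fin.cases h1 h2 i

theorem continuous_rot {m : ℕ} :
    Continuous fun p : ℂ × EuclideanSpace ℝ (Fin (m + 2)) => rot p.1 p.2 := by
  refine (PiLp.continuous_toLp 2 _).comp (continuous_pi fun i => ?_)
  refine Fin.cases ?_ (fun i => ?_) i
  · simp only [Fin.cons_zero]
    fun_prop
  · refine Fin.cases ?_ (fun j => ?_) i
    · simp only [Fin.cons_succ, Fin.cons_zero]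
      fun_prop
    · simp only [Fin.cons_succ]
      fun_prop

theorem norm_rot {m : ℕ} (z : Circle) (x : EuclideanSpace ℝ (Fin (m + 2))) :
    ‖rot (z : ℂ) x‖ = ‖x‖ := by
  have h : (z : ℂ).re ^ 2 + (z : ℂ).im ^ 2 = 1 := by
    have := Circle.normSq_coe z
    rw [Complex.normSq_apply] at this
    linarith
  rw [EuclideanSpace.norm_eq, EuclideanSpace.norm_eq]
  congr 1
  simp only [Fin.sum_univ_succ, Real.norm_eq_abs, sq_abs, rot_succ]
  have e : (Fin.succ (0 : Fin (m + 1))) = 1 := rfl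
  rw [e, rot_zero, rot_one]
  linear_combination (x 0 ^ 2 + x 1 ^ 2) * h

theorem rot_one' {m : ℕ} (x : EuclideanSpace ℝ (Fin (m + 2))) : rot 1 x = x :=
  ext2 (by simp [rot_zero]) (by simp [rot_one]) fun _ => rfl

theorem rot_mul {m : ℕ} (z w : ℂ) (x : EuclideanSpace ℝ (Fin (m + 2))) :
    rot (z * w) x = rot z (rot w x) := by
  refine ext2 ?_ ?_ fun _ => rfl
  · simp only [rot_zero, rot_one, Complex.mul_re, Complex.mul_im]; ring
  · simp only [rot_zero, rot_one, Complex.mul_re, Complex.mul_im]; ring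

theorem exists_rot {m : ℕ} {x y : EuclideanSpace ℝ (Fin (m + 2))}
    (h : x 0 ^ 2 + x 1 ^ 2 = y 0 ^ 2 + y 1 ^ 2)
    (h2 : ∀ j : Fin m, x j.succ.succ = y j.succ.succ) : ∃ z : Circle, y = rot (z : ℂ) x := by
  by_cases h0 : x 0 ^ 2 + x 1 ^ 2 = 0
  · refine ⟨1, ?_⟩
    rw [Circle.coe_one, rot_one']
    have a0 : x 0 = 0 := by nlinarith [sq_nonneg (x 0), sq_nonneg (x 1)]
    have a1 : x 1 = 0 := by nlinarith [sq_nonneg (x 0), sq_nonneg (x 1)]
    have b0 : y 0 = 0 := by nlinarith [sq_nonneg (y 0), sq_nonneg (y 1)]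
    have b1 : y 1 = 0 := by nlinarith [sq_nonneg (y 0), sq_nonneg (y 1)]
    exact ext2 (by rw [a0, b0]) (by rw [a1, b1]) fun j => (h2 j).symm
  · let w : ℂ := ⟨(x 0 * y 0 + x 1 * y 1) / (x 0 ^ 2 + x 1 ^ 2),
      (x 0 * y 1 - x 1 * y 0) / (x 0 ^ 2 + x 1 ^ 2)⟩
    have hw : ‖w‖ = 1 := by
      have : Complex.normSq w = 1 := by
        rw [Complex.normSq_apply]
        simp only [w]
        field_simp
        linear_combination (-(x 0 ^ 2 + x 1 ^ 2)) * h
      rw [Complex.normSq_eq_norm_sq] at this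
      nlinarith [norm_nonneg w]
    refine ⟨⟨w, mem_sphere_zero_iff_norm.mpr hw⟩, ext2 ?_ ?_ fun j => (h2 j).symm⟩
    · show y 0 = w.re * x 0 - w.im * x 1
      simp only [w]
      field_simp
      ring
    · show y 1 = w.im * x 0 + w.re * x 1
      simp only [w]
      field_simp
      ring

/-- The closed unit ball. -/
abbrev D (n : ℕ) : Type := closedBall (0 : EuclideanSpace ℝ (Fin n)) 1

theorem rot_mem {m : ℕ} (z : Circle) (x : D (m + 2)) :
    rot (z : ℂ) (x : EuclideanSpace ℝ (Fin (m + 2))) ∈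
      closedBall (0 : EuclideanSpace ℝ (Fin (m + 2))) 1 := by
  rw [mem_closedBall_zero_iff, norm_rot]
  exact mem_closedBall_zero_iff.mp x.2

/-- The circle action on the ball, uncurried. -/
noncomputable def act (m : ℕ) : C(Circle × D (m + 2), D (m + 2)) where
  toFun p := ⟨rot (p.1 : ℂ) p.2, rot_mem p.1 p.2⟩
  continuous_toFun := by
    refine Continuous.subtype_mk ?_ _
    exact continuous_rot.comp ((continuous_subtype_val.comp continuous_fst).prodMk
      (continuous_subtype_val.comp continuous_snd))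

/-- The circle action on the ball. -/
noncomputable def rho (m : ℕ) (z : Circle) : C(D (m + 2), D (m + 2)) := (act m).curry z

theorem continuous_rho (m : ℕ) : Continuous (rho m) := (act m).curry.continuous

theorem rho_val (m : ℕ) (z : Circle) (x : D (m + 2)) :
    (rho m z x : EuclideanSpace ℝ (Fin (m + 2))) = rot (z : ℂ) x := rfl

theorem rho_one (m : ℕ) (x : D (m + 2)) : rho m 1 x = x := Subtype.ext (rot_one' _)

theorem rho_mul (m : ℕ) (z w : Circle) (x : D (m + 2)) :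
    rho m (z * w) x = rho m z (rho m w x) := Subtype.ext (rot_mul _ _ _)

theorem rho_bijective (m : ℕ) (z : Circle) : Function.Bijective (rho m z) := by
  refine Function.bijective_iff_has_inverse.mpr ⟨rho m z⁻¹, fun x => ?_, fun x => ?_⟩
  · rw [← rho_mul, inv_mul_cancel, rho_one]
  · rw [← rho_mul, mul_inv_cancel, rho_one]

theorem clamp_mem {n : ℕ} (u : EuclideanSpace ℝ (Fin n)) :
    (max 1 ‖u‖)⁻¹ • u ∈ closedBall (0 : EuclideanSpace ℝ (Fin n)) 1 := by
  have h : 0 < max 1 ‖u‖ := lt_of_lt_of_le one_pos (le_max_left _ _)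
  rw [mem_closedBall_zero_iff, norm_smul, norm_inv, Real.norm_of_nonneg h.le,
    inv_mul_le_iff₀ h, mul_one]
  exact le_max_right _ _

theorem big (m : ℕ) (g : C(D (m + 2), D (m + 2))) :
    ∃ z x y, g y = rho m z (g x) ∧ 1 / ((m : ℝ) + 2) ≤ dist x y := by
  let p : (Fin (m + 2) → ℝ) → D (m + 2) := fun u =>
    ⟨(max 1 ‖(WithLp.toLp 2 u : EuclideanSpace ℝ (Fin (m + 2)))‖)⁻¹ • WithLp.toLp 2 u,
      clamp_mem _⟩
  have hp : Continuous p := by
    refine Continuous.subtype_mk ?_ _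
    have h1 : Continuous fun u : Fin (m + 2) → ℝ =>
        (WithLp.toLp 2 u : EuclideanSpace ℝ (Fin (m + 2))) := PiLp.continuous_toLp 2 _
    refine Continuous.smul (Continuous.inv₀ (continuous_const.max h1.norm) fun u => ?_) h1
    exact (lt_of_lt_of_le one_pos (le_max_left _ _)).ne'
  let q : D (m + 2) → (Fin (m + 1) → ℝ) := fun x =>
    Fin.cons ((x : EuclideanSpace ℝ (Fin (m + 2))) 0 ^ 2 + (x : EuclideanSpace ℝ (Fin (m + 2))) 1 ^ 2)
      fun j : Fin m => (x : EuclideanSpace ℝ (Fin (m + 2))) j.succ.succ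
  have hq : Continuous q := by
    refine continuous_pi fun i => ?_
    refine Fin.cases ?_ (fun j => ?_) i
    · simp only [q, Fin.cons_zero]
      fun_prop
    · simp only [q, Fin.cons_succ]
      fun_prop
  have hF : Continuous fun u => q (g (p u)) := hq.comp (g.continuous.comp hp)
  obtain ⟨u, hu, hu0⟩ := Pool.Agent.Helper82.BorsukUlam.borsuk_ulam (m + 1)
    (fun u => q (g (p u)) - q (g (p (-u)))) (hF.sub (hF.comp continuous_neg))
    (fun u => by simp)
  have he : q (g (p u)) = q (g (p (-u))) := sub_eq_zero.mp hu0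
  obtain ⟨z, hz⟩ := exists_rot (x := (g (p u) : EuclideanSpace ℝ (Fin (m + 2))))
    (y := (g (p (-u)) : EuclideanSpace ℝ (Fin (m + 2)))) (congrFun he 0)
    (fun j => congrFun he j.succ)
  refine ⟨z, p u, p (-u), Subtype.ext hz, ?_⟩
  set w : EuclideanSpace ℝ (Fin (m + 2)) := WithLp.toLp 2 u with hw
  have hm : (0 : ℝ) < m + 2 := by positivity
  have hlow : 1 / ((m : ℝ) + 2) ≤ ‖w‖ := by
    have h1 : ∑ i, |u i| = 1 := hu
    have h2 : ∑ i, |u i| ≤ ∑ _i : Fin (m + 2), ‖w‖ :=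
      Finset.sum_le_sum fun i _ => by simpa using PiLp.norm_apply_le w i
    rw [h1, Finset.sum_const, Finset.card_univ, Fintype.card_fin, nsmul_eq_mul] at h2
    rw [div_le_iff₀ hm]
    push_cast at h2
    linarith
  have hneg : (WithLp.toLp 2 (-u) : EuclideanSpace ℝ (Fin (m + 2))) = -w := rfl
  have hmax : 0 < max 1 ‖w‖ := lt_of_lt_of_le one_pos (le_max_left _ _)
  have hdist : dist (p u) (p (-u)) = 2 * ((max 1 ‖w‖)⁻¹ * ‖w‖) := by
    rw [Subtype.dist_eq, dist_eq_norm]
    show ‖(max 1 ‖w‖)⁻¹ • w - (max 1 ‖(WithLp.toLp 2 (-u) : EuclideanSpace ℝ (Fin (m + 2)))‖)⁻¹ •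
      (WithLp.toLp 2 (-u) : EuclideanSpace ℝ (Fin (m + 2)))‖ = _
    rw [hneg, norm_neg, smul_neg, sub_neg_eq_add, ← two_smul ℝ, norm_smul, norm_smul, norm_inv,
      Real.norm_of_nonneg hmax.le]
    simp
  rw [hdist]
  have h1 : 1 / ((m : ℝ) + 2) ≤ 1 := by
    rw [div_le_one hm]
    have : (0 : ℝ) ≤ m := Nat.cast_nonneg m
    linarith
  have h0 : 0 < 1 / ((m : ℝ) + 2) := by positivity
  rcases le_total 1 ‖w‖ with h | h
  · rw [max_eq_right h, inv_mul_cancel₀ (by linarith)]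
    linarith
  · rw [max_eq_left h]
    linarith

/-- The unit sphere. -/
abbrev S (n : ℕ) : Type := sphere (0 : EuclideanSpace ℝ (Fin n)) 1

theorem rot_mem_sphere {m : ℕ} (z : Circle) (x : S (m + 2)) :
    rot (z : ℂ) (x : EuclideanSpace ℝ (Fin (m + 2))) ∈
      sphere (0 : EuclideanSpace ℝ (Fin (m + 2))) 1 := by
  rw [mem_sphere_zero_iff_norm, norm_rot]
  exact mem_sphere_zero_iff_norm.mp x.2

/-- The circle action on the sphere, uncurried. -/
noncomputable def actS (m : ℕ) : C(Circle × S (m + 2), S (m + 2)) where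
  toFun p := ⟨rot (p.1 : ℂ) p.2, rot_mem_sphere p.1 p.2⟩
  continuous_toFun := by
    refine Continuous.subtype_mk ?_ _
    exact continuous_rot.comp ((continuous_subtype_val.comp continuous_fst).prodMk
      (continuous_subtype_val.comp continuous_snd))

theorem homotopic_id (m : ℕ) (z : Circle) :
    ContinuousMap.Homotopic ((actS m).curry z) (ContinuousMap.id (S (m + 2))) := by
  obtain ⟨γ⟩ := PathConnectedSpace.joined z 1
  refine ⟨{ toFun := fun p => actS m (γ p.1, p.2)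
            continuous_toFun := (actS m).continuous.comp
              ((γ.continuous.comp continuous_fst).prodMk continuous_snd)
            map_zero_left := fun x => by simp
            map_one_left := fun x => ?_ }⟩
  simp only [Path.target, ContinuousMap.id_apply]
  exact Subtype.ext (rot_one' _)

theorem main (m : ℕ) (G : Set C(D (m + 2), D (m + 2))) (hG : ∀ f ∈ G, Function.Bijective f)
    (hρG : ∀ z, rho m z ∈ G) [MeasurableSpace G] [BorelSpace G] :
    ∃ B : Set G, IsMeagre Bᶜ ∧ MeasurableSet B ∧ ∃ μ : Measure G, IsProbabilityMeasure μ ∧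
      ∀ g h : G, μ {x : G | ∃ b ∈ B, (x : C(D (m + 2), D (m + 2))) =
        (g : C(D (m + 2), D (m + 2))).comp
          ((b : C(D (m + 2), D (m + 2))).comp (h : C(D (m + 2), D (m + 2))))} = 0 :=
  abstract (continuous_rho m) (rho_one m) (rho_mul m) (ε₀ := 1 / ((m : ℝ) + 2)) (by positivity)
    (big m) G hG hρG

end Pool.Agent.H708Z.HaarBall
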